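import Pool.Agent.Q127.KI.Stm

set_option autoImplicit false

/-! Project KI, job INV: `Sk` is invariant under translations. -/

namespace Pool.Agent.Q71.KI_INV

open Pool.Agent.Q127.KI

theorem inv : S_inv := by
  intro k a w hw
  obtain ⟨r, hr⟩ := hw
  refine ⟨r - a, fun j => ?_⟩
  obtain ⟨s, hs⟩ := hr j
  refine ⟨s, fun i hi => ?_⟩
  have h := hs i hi
  have e : r - a + j * (L k : ℤ) + (i : ℤ) + a = r + j * (L k : ℤ) + (i : ℤ) := by ring
  change w (r - a + j * (L k : ℤ) + (i : ℤ) + a) = _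
  rw [e]
  exact h

end Pool.Agent.Q71.KI_INV
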