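import Pool.Agent.Q2.CS2.Stm

/-!
# Project CAS, job 6: neutral element and involution
-/

set_option autoImplicit false

namespace Q71.CS2_6

open Q2.CS2

theorem j6 (h1 : S_1) (h2 : S_2) : S_6 := by
  intro X D _ π hπ
  obtain ⟨h1a, h1b, h1c, h1d⟩ := h1 X D π hπ
  obtain ⟨h2a, h2b, h2c, h2d⟩ := h2 X D π hπ
  have hpt : pt π (π default default) = default := (h1d _ _ (h1c (π default default))).symm
  have hn1 : n π (π default default) = 1 := by
    have e : {y : X | π default y = π default default} = {default} := by
      ext y
      simp only [Set.mem_setOf_eq, Set.mem_singleton_iff]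
      exact ⟨fun h => (h1d _ _ h).symm, fun h => by rw [h]⟩
    unfold n
    rw [e, Set.ncard_singleton]
    norm_num
  refine ⟨fun x z => ?_, fun x z => ?_, fun x y => ?_⟩
  · unfold c
    rw [hn1, inv_one, mul_one]
    by_cases hz : z = x
    · subst hz
      have e : {v : X | π default v = π default default ∧ π v (pt π z) = z} = {default} := by
        ext v
        simp only [Set.mem_setOf_eq, Set.mem_singleton_iff]
        exact ⟨fun h => (h1d _ _ h.1).symm, fun h => by rw [h]; exact ⟨rfl, h1c z⟩⟩
      unfold tr
      rw [e, Set.ncard_singleton, Set.indicator_of_mem (Set.mem_singleton z), Nat.cast_one, mul_one,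
        mul_inv_cancel₀ (h1b z).ne']
    · have e : {v : X | π default v = π default default ∧ π v (pt π z) = x} = ∅ := by
        ext v
        simp only [Set.mem_setOf_eq, Set.mem_empty_iff_false, iff_false, not_and]
        intro h h'
        rw [← h1d _ _ h, h1c z] at h'
        exact hz h'
      unfold tr
      rw [e, Set.ncard_empty, Nat.cast_zero, mul_zero, Set.indicator_of_notMem
        (fun h => hz (Set.mem_singleton_iff.1 h))]
  · unfold c
    rw [hn1, inv_one, mul_one]
    by_cases hz : z = x
    · subst hz
      have e : {v : X | π default v = z ∧ π v (pt π z) = π default default} = {pt π z} := by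
        ext v
        simp only [Set.mem_setOf_eq, Set.mem_singleton_iff]
        refine ⟨fun h => h1d _ _ (h.2.trans (hπ.2.1 default v)), fun h => ?_⟩
        rw [h]
        exact ⟨h1c z, hπ.2.1 _ _⟩
      unfold tr
      rw [e, Set.ncard_singleton, Set.indicator_of_mem (Set.mem_singleton z), Nat.cast_one, mul_one,
        mul_inv_cancel₀ (h1b z).ne']
    · have e : {v : X | π default v = x ∧ π v (pt π z) = π default default} = ∅ := by
        ext v
        simp only [Set.mem_setOf_eq, Set.mem_empty_iff_false, iff_false, not_and]
        intro h h'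
        have h3 := h1d _ _ (h'.trans (hπ.2.1 default v))
        rw [h3, h1c z] at h
        exact hz h
      unfold tr
      rw [e, Set.ncard_empty, Nat.cast_zero, mul_zero, Set.indicator_of_notMem
        (fun h => hz (Set.mem_singleton_iff.1 h))]
  · have hpos : 0 < n π (π default default) * (n π x)⁻¹ * (n π y)⁻¹ :=
      mul_pos (mul_pos (h1b _) (inv_pos.2 (h1b x))) (inv_pos.2 (h1b y))
    unfold c
    rw [mul_pos_iff_of_pos_left hpos, hpt]
    unfold tr
    rw [Nat.cast_pos, Set.ncard_pos (h2d default default x y)]
    constructor
    · rintro ⟨v, hv1, hv2⟩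
      rw [← hv1, h2b default v, hv2]
    · intro h
      refine ⟨pt π x, h1c x, ?_⟩
      rw [h, ← h2b default (pt π x), h1c x]

end Q71.CS2_6
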