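import Pool.Agent.Q2.CS2.Stm

/-!
# Project CAS, job 7: the modular function
-/

set_option autoImplicit false

namespace Q71.CS2_7

open Q2.CS2

theorem j7 (h1 : S_1) (h2 : S_2) : S_7 := by
  intro X D _ π w hπ hw hmod
  obtain ⟨h1a, h1b, h1c, h1d⟩ := h1 X D π hπ
  obtain ⟨h2a, h2b, h2c, h2d⟩ := h2 X D π hπ
  refine ⟨fun x y z => ?_, fun h x y => ?_⟩
  · set b := pt π z with hb
    have hz : π default b = z := h1c z
    have hbz : π b default = br π z := by rw [← hz, h2b]
    have e1 : tr π default (pt π (br π z)) x y = tr π b default x y := by
      rw [h2a b default x y, hbz]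
    have e2 : tr π b default x y = tr π default b (br π y) (br π x) := by
      unfold tr
      have e : {v : X | π b v = x ∧ π v default = y} =
          {v : X | π default v = br π y ∧ π v b = br π x} := by
        ext v
        simp only [Set.mem_setOf_eq]
        constructor
        · rintro ⟨h3, h4⟩
          rw [← h3, ← h4, h2b, h2b]
          exact ⟨rfl, rfl⟩
        · rintro ⟨h3, h4⟩
          constructor
          · rw [← h2b v b, h4, h2c]
          · rw [← h2b default v, h3, h2c]
      rw [e]
    unfold c
    rw [e1, ← hb, ← e2]
    rcases Set.eq_empty_or_nonempty {v : X | π b v = x ∧ π v default = y} with h0 | ⟨v, hv1, hv2⟩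
    · have e3 : tr π b default x y = 0 := by
        unfold tr
        rw [h0, Set.ncard_empty, Nat.cast_zero]
      rw [e3, mul_zero, mul_zero]
    · congr 1
      have hvb : π v b = br π x := by rw [← hv1, h2b]
      have hov : π default v = br π y := by rw [← hv2, h2b]
      have m1 : w b * n π (br π x) = w v * n π x := by
        have := hmod b v
        rwa [hvb, hv1] at this
      have m2 : w v * n π (br π y) = w default * n π y := by
        have := hmod v default
        rwa [hov, hv2] at this
      have m3 : w b * n π z = w default * n π (br π z) := by
        have := hmod b default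
        rwa [hz, hbz] at this
      have p1 := h1b x
      have p2 := h1b y
      have p3 := h1b (br π x)
      have p4 := h1b (br π y)
      have key : n π (br π z) * n π (br π y) * n π (br π x) = n π z * n π x * n π y := by
        have hW : 0 < w default * w v * w b := mul_pos (mul_pos (hw _) (hw _)) (hw _)
        refine mul_left_cancel₀ hW.ne' ?_
        calc w default * w v * w b * (n π (br π z) * n π (br π y) * n π (br π x)) =
              (w default * n π (br π z)) * (w v * n π (br π y)) * (w b * n π (br π x)) := by ring
          _ = (w b * n π z) * (w default * n π y) * (w v * n π x) := by rw [← m3, m2, m1]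
          _ = w default * w v * w b * (n π z * n π x * n π y) := by ring
      rw [← div_eq_mul_inv, ← div_eq_mul_inv, ← div_eq_mul_inv, ← div_eq_mul_inv, div_div, div_div,
        div_eq_div_iff (mul_pos p1 p2).ne' (mul_pos p4 p3).ne']
      rw [← mul_assoc, ← mul_assoc, key]
  · unfold K
    by_cases hxy : π x y = br π h
    · have hyx : π y x = h := by rw [← h2b x y, hxy, h2c]
      rw [Set.indicator_of_mem (show y ∈ {y | π x y = br π h} from hxy),
        Set.indicator_of_mem (show x ∈ {x | π y x = h} from hyx)]
      have m := hmod x y
      rw [hyx, hxy] at m
      have p1 := h1b h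
      have p2 := h1b (br π h)
      rw [← div_eq_mul_inv, ← div_eq_mul_inv, div_eq_div_iff p2.ne' p1.ne', m]
    · have hyx : π y x ≠ h := by
        intro h3
        apply hxy
        rw [← h3, h2b]
      rw [Set.indicator_of_notMem (show y ∉ {y | π x y = br π h} from hxy),
        Set.indicator_of_notMem (show x ∉ {x | π y x = h} from hyx), mul_zero, mul_zero]

end Q71.CS2_7
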