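import Mathlib
import Pool.Agent.Q2.TN.Stm

/-! Project TN (helper2), job G5 (helper71). -/

set_option autoImplicit false

namespace Q71.TN_G5

open Q2.TN Subgroup

/-- conjugate of a Sylow subgroup -/
lemma isSyl_map {p : ℕ} {G : Type} [Group G] [Finite G] {P : Subgroup G} (hP : IsSyl p P)
    (e : G ≃* G) : IsSyl p (P.map e.toMonoidHom) := by
  refine ⟨hP.1.map _, ?_⟩
  have h1 : (P.map e.toMonoidHom).index = P.index := by
    exact index_map_equiv P e
  rw [h1]
  exact hP.2

/-- transport of p-nilpotence along conjugation -/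
lemma pnil_map (h2 : S_A2) {p : ℕ} (hp : p.Prime) {G : Type} [Group G] [Finite G]
    (X : Subgroup G) (e : G ≃* G) (h : IsPNil p (Nm X)) : IsPNil p (Nm (X.map e.toMonoidHom)) := by
  have h1 : Nm (X.map e.toMonoidHom) = (Nm X).map e.toMonoidHom :=
    (map_equiv_normalizer_eq X e).symm
  rw [h1]
  exact h2 p hp (Nm X) ((Nm X).map e.toMonoidHom)
    ((Nm X).equivMapOfInjective e.toMonoidHom e.injective).toMonoidHom
    ((Nm X).equivMapOfInjective e.toMonoidHom e.injective).surjective h

/-- growth of normalizers in a p-group -/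
lemma grow {p : ℕ} (hp : p.Prime) {G : Type} [Group G] [Finite G] {P R : Subgroup G}
    (hP : IsPGroup p P) (hRP : R < P) : R < Nm R ⊓ P := by
  have : Fact p.Prime := ⟨hp⟩
  have hn : Group.IsNilpotent P := hP.isNilpotent
  have h1 : R.subgroupOf P < ⊤ := by
    rw [lt_top_iff_ne_top]
    intro h
    rw [subgroupOf_eq_top] at h
    exact absurd hRP (not_lt_of_ge h)
  have h2 := Group.normalizerCondition_of_isNilpotent (G := P) _ h1
  have h3 : normalizer ((R.subgroupOf P : Subgroup P) : Set P) =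
      (normalizer (R : Set G)).subgroupOf P := (subgroupOf_normalizer_eq hRP.le).symm
  rw [h3] at h2
  refine lt_of_le_of_ne (le_inf le_normalizer hRP.le) ?_
  intro h
  have h4 : (R.subgroupOf P) = (normalizer (R : Set G)).subgroupOf P := by
    conv_lhs => rw [h]
    ext x
    simp [mem_subgroupOf]
  exact absurd h2 (by rw [← h4]; exact lt_irrefl _)

/-- the `p`-part of the order -/
lemma card_syl {p : ℕ} (hp : p.Prime) {G : Type} [Group G] [Finite G] {N R : Subgroup G}
    (hRN : R ≤ N) (hR : IsSyl p (R.subgroupOf N)) :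
    IsPGroup p R ∧ ∀ X Y : Subgroup G, IsPGroup p X → X ≤ Y →
      (Nat.card Y).factorization p ≤ (Nat.card N).factorization p → Nat.card X ≤ Nat.card R := by
  have : Fact p.Prime := ⟨hp⟩
  have hc : Nat.card (R.subgroupOf N) = Nat.card R :=
    Nat.card_congr (subgroupOfEquivOfLe hRN).toEquiv
  have hRp : IsPGroup p R := by
    have := hR.1.of_equiv (subgroupOfEquivOfLe hRN)
    exact this
  refine ⟨hRp, ?_⟩
  intro X Y hX hXY hle
  obtain ⟨a, ha⟩ := (IsPGroup.iff_card).1 hRp
  obtain ⟨b, hb⟩ := (IsPGroup.iff_card).1 hX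
  have h1 : Nat.card R * (R.subgroupOf N).index = Nat.card N := by
    rw [← hc]
    exact card_mul_index _
  have h2 : (Nat.card N).factorization p = a := by
    rw [← h1, Nat.factorization_mul Nat.card_pos.ne' index_ne_zero_of_finite, Finsupp.add_apply, ha,
      Nat.factorization_eq_zero_of_not_dvd hR.2, hp.factorization_pow]
    simp
  have h3 : p ^ b ∣ Nat.card Y := hb ▸ card_dvd_of_le hXY
  have h4 : b ≤ (Nat.card Y).factorization p :=
    (hp.pow_dvd_iff_le_factorization Nat.card_pos.ne').1 h3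
  rw [ha, hb]
  exact Nat.pow_le_pow_right hp.pos (by omega)

/-- **G5** -/
theorem g5 (h2 : S_A2) (h6 : S_A6) (h3 : S_B3) (hd : S_D1) (hd2 : S_D2) : S_G5 := by
  intro p hp G _ _ P₀ hP₀ hG hW₀ hind
  have : Fact p.Prime := ⟨hp⟩
  -- the bad subgroups
  set S : Set (Subgroup G) := {U | IsPGroup p U ∧ U ≠ ⊥ ∧ ¬ IsPNil p (Nm U)} with hS
  have hne : S.Nonempty := by
    by_contra hcon
    rw [Set.not_nonempty_iff_eq_empty] at hcon
    apply hG
    apply h3 p hp G
    intro U hU hU1
    by_contra hc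
    have : U ∈ S := ⟨hU, hU1, hc⟩
    rw [hcon] at this
    exact this
  obtain ⟨U, hUS, hUmax⟩ := Set.exists_max_image S
    (fun U => (Nat.card (Nm U)).factorization p) (Set.toFinite S) hne
  obtain ⟨hUp, hU1, hUn⟩ := hUS
  by_cases htop : Nm U = ⊤
  · exact ⟨U, normalizer_eq_top_iff.1 htop, hUp, hU1⟩
  exfalso
  obtain ⟨R, hRN, hRS, g, hg⟩ := (h6 p hp G P₀ hP₀).2.2 (Nm U)
  -- replace `P₀` by a conjugate which contains `R`
  set e : G ≃* G := (MulAut.conj g).symm with he
  set P : Subgroup G := P₀.map e.toMonoidHom with hPdef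
  have hP : IsSyl p P := isSyl_map hP₀ e
  have hW : ∀ b : Bool, IsPNil p (Nm (W b P)) := by
    intro b
    have := hd G G e.toMonoidHom P₀ (fun x _ hx => by simpa using hx) b
    rw [hPdef, ← this]
    exact pnil_map h2 hp _ e (hW₀ b)
  have hRP : R ≤ P := by
    intro x hx
    have h := hg (mem_map_of_mem _ hx)
    rw [hPdef, mem_map]
    refine ⟨_, h, ?_⟩
    simp only [he, MulEquiv.coe_toMonoidHom, MulAut.conj_apply, MulAut.conj_symm_apply]
    group
  obtain ⟨hRp, hRcard⟩ := card_syl hp hRN hRS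
  have hUR : U ≤ R := by
    have hUN : U ≤ Nm U := le_normalizer
    have hn : (U.subgroupOf (Nm U)).Normal := normal_in_normalizer
    have hUp' : IsPGroup p (U.subgroupOf (Nm U)) := hUp.of_equiv (subgroupOfEquivOfLe hUN).symm
    have h := hUp'.le_sylow_of_normal (hRS.1.toSylow hRS.2)
    rw [IsPGroup.toSylow_coe] at h
    intro x hx
    have h5 : (⟨x, hUN hx⟩ : Nm U) ∈ U.subgroupOf (Nm U) := by
      rw [mem_subgroupOf]
      exact hx
    have h6 := h h5
    rwa [mem_subgroupOf] at h6
  have hR1 : R ≠ ⊥ := by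
    rintro rfl
    exact hU1 (le_bot_iff.1 hUR)
  have hclaim : ∀ b : Bool, IsPNil p (Nm (W b R)) := by
    intro b
    rcases eq_or_lt_of_le hRP with h | h
    · rw [h]
      exact hW b
    · by_contra hcon
      obtain ⟨hWR, hW1, hNW, -⟩ := (hd2 p hp G R).1 b
      have hmem : W b R ∈ S := ⟨hRp.to_le hWR, hW1 hRp hR1, hcon⟩
      have hle := hUmax _ hmem
      have hgr := grow hp hP.1 h
      have h5 : Nat.card ↥(Nm R ⊓ P) ≤ Nat.card R :=
        hRcard (Nm R ⊓ P) (Nm (W b R)) (hP.1.to_le inf_le_right) (inf_le_left.trans hNW) hle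
      have h6 : R = Nm R ⊓ P := by
        apply eq_of_le_of_card_ge hgr.le h5
      exact absurd hgr (by rw [← h6]; exact lt_irrefl _)
  exact hUn (hind (Nm U) htop R hRN hRS hclaim)

end Q71.TN_G5
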