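import Mathlib
import Pool.Agent.Q2.TN.Stm

/-! Project TN (helper2), job M10 (helper71). -/

set_option autoImplicit false

namespace Q71.TN_M10

open Q2.TN Subgroup

/-- power of a product when the commutator is central -/
lemma mul_pow_class_two {G : Type} [Group G] (x y z : G) (h : y * x = z * (x * y))
    (hx : z * x = x * z) (hy : z * y = y * z) (n : ℕ) :
    (x * y) ^ n = x ^ n * y ^ n * z ^ n.choose 2 := by
  have hzx : Commute z x := hx
  have hzy : Commute z y := hy
  have h1 : ∀ n : ℕ, y ^ n * x = z ^ n * (x * y ^ n) := by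
    intro n
    induction n with
    | zero => simp
    | succ n ih =>
      calc y ^ (n + 1) * x = y ^ n * (y * x) := by rw [pow_succ, mul_assoc]
        _ = y ^ n * (z * (x * y)) := by rw [h]
        _ = z * (y ^ n * (x * y)) := by
            rw [← mul_assoc, ← (hzy.pow_right n).eq, mul_assoc]
        _ = z * ((y ^ n * x) * y) := by rw [mul_assoc (y ^ n)]
        _ = z * (z ^ n * (x * y ^ n) * y) := by rw [ih]
        _ = z ^ (n + 1) * (x * y ^ (n + 1)) := by
            rw [pow_succ' z, pow_succ y]
            simp only [mul_assoc]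
  induction n with
  | zero => simp
  | succ n ih =>
    have h2 : (n + 1).choose 2 = n + n.choose 2 := by
      rw [Nat.choose_succ_succ' n 1, Nat.choose_one_right]
    rw [pow_succ, ih, h2]
    calc x ^ n * y ^ n * z ^ n.choose 2 * (x * y)
        = x ^ n * y ^ n * ((x * y) * z ^ n.choose 2) := by
          rw [mul_assoc (x ^ n * y ^ n), ((hzx.mul_right hzy).pow_left _).eq]
      _ = x ^ n * (y ^ n * x) * (y * z ^ n.choose 2) := by simp only [mul_assoc]
      _ = x ^ n * (z ^ n * (x * y ^ n)) * (y * z ^ n.choose 2) := by rw [h1]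
      _ = x ^ n * (x * y ^ n * z ^ n) * (y * z ^ n.choose 2) := by
          rw [((hzx.mul_right (hzy.pow_right n)).pow_left n).eq]
      _ = x ^ n * x * y ^ n * (z ^ n * y) * z ^ n.choose 2 := by simp only [mul_assoc]
      _ = x ^ n * x * y ^ n * (y * z ^ n) * z ^ n.choose 2 := by
          rw [(hzy.pow_left n).eq]
      _ = x ^ (n + 1) * y ^ (n + 1) * z ^ (n + n.choose 2) := by
          rw [pow_succ, pow_succ, pow_add]
          simp only [mul_assoc]

/-- a chief factor which is a `p`-group is elementary abelian -/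
lemma chief_elem {p : ℕ} (hp : p.Prime) {G : Type} [Group G] [Finite G] {M T : Subgroup G}
    (hT : IsPGroup p T) (hMT : IsChief M T) :
    (∀ x ∈ T, x ^ p ∈ M) ∧ ∀ x ∈ T, ∀ y ∈ T, x * y * x⁻¹ * y⁻¹ ∈ M := by
  have : Fact p.Prime := ⟨hp⟩
  obtain ⟨hM, hTn, hlt, hch⟩ := hMT
  set π := QuotientGroup.mk' M with hπ
  have hπs : Function.Surjective π := QuotientGroup.mk'_surjective M
  have hker : π.ker = M := QuotientGroup.ker_mk' M
  set T' : Subgroup (G ⧸ M) := T.map π with hT'
  have hT'n : T'.Normal := hTn.map π hπs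
  have hT'p : IsPGroup p T' := hT.map π
  have hT'1 : T' ≠ ⊥ := by
    intro h
    rw [hT', Subgroup.map_eq_bot_iff, hker] at h
    exact absurd hlt (not_lt_of_ge h)
  have hmin : ∀ L : Subgroup (G ⧸ M), L.Normal → L ≤ T' → L = ⊥ ∨ L = T' := by
    intro L hL hLT
    rcases hch (L.comap π) (hL.comap π) (by
      intro x hx
      rw [mem_comap]
      have : π x = 1 := by rw [← MonoidHom.mem_ker, hker]; exact hx
      rw [this]
      exact L.one_mem) (by
      intro x hx
      rw [mem_comap] at hx
      obtain ⟨t, ht, htx⟩ := hLT hx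
      have h2 : t⁻¹ * x ∈ M := by
        rw [← hker, MonoidHom.mem_ker, map_mul, map_inv, htx]
        simp
      have h3 := T.mul_mem ht (hlt.le h2)
      simpa using h3) with h | h
    · left
      rw [← map_comap_eq_self_of_surjective hπs L, h, Subgroup.map_eq_bot_iff, hker]
    · right
      rw [← map_comap_eq_self_of_surjective hπs L, h]
  -- `T'` is abelian
  have hab : ⁅T', T'⁆ = ⊥ := by
    rcases hmin ⁅T', T'⁆ inferInstance (commutator_le_left T' T') with h | h
    · exact h
    · exfalso
      have hnil : Group.IsNilpotent T' := hT'p.isNilpotent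
      have hsol : Group.IsSolvable T' := inferInstance
      have hnt : Nontrivial T' := (nontrivial_iff_ne_bot T').2 hT'1
      have h1 := Group.IsSolvable.commutator_lt_top_of_nontrivial T'
      apply h1.ne
      have h2 : (commutator T').map T'.subtype = (⊤ : Subgroup T').map T'.subtype := by
        rw [map_subtype_commutator, h, ← MonoidHom.range_eq_map, range_subtype]
      exact map_injective T'.subtype_injective h2
  have hcomm : ∀ x ∈ T', ∀ y ∈ T', x * y = y * x := by
    intro x hx y hy
    have h1 := commutator_mem_commutator hx hy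
    rw [hab, mem_bot, commutatorElement_eq_one_iff_mul_comm] at h1
    exact h1
  -- `T'` has exponent `p`
  have hexp : ∀ x ∈ T', x ^ p = 1 := by
    let Ω : Subgroup (G ⧸ M) :=
      { carrier := {x | x ∈ T' ∧ x ^ p = 1}
        one_mem' := ⟨T'.one_mem, one_pow _⟩
        mul_mem' := by
          rintro x y ⟨hx, hx1⟩ ⟨hy, hy1⟩
          refine ⟨T'.mul_mem hx hy, ?_⟩
          have h : Commute x y := hcomm x hx y hy
          rw [h.mul_pow, hx1, hy1, one_mul]
        inv_mem' := by
          rintro x ⟨hx, hx1⟩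
          exact ⟨T'.inv_mem hx, by rw [inv_pow, hx1, inv_one]⟩ }
    have hΩn : Ω.Normal := by
      refine ⟨?_⟩
      rintro x ⟨hx, hx1⟩ g
      exact ⟨hT'n.conj_mem x hx g, by rw [conj_pow, hx1]; simp⟩
    rcases hmin Ω hΩn (fun x hx => hx.1) with h | h
    · exfalso
      obtain ⟨k, hk⟩ := (IsPGroup.iff_card).1 hT'p
      have hk0 : k ≠ 0 := by
        rintro rfl
        rw [pow_zero, card_eq_one] at hk
        exact hT'1 hk
      obtain ⟨x, hx⟩ := exists_prime_orderOf_dvd_card' (G := T') p
        (by rw [hk]; exact dvd_pow_self p hk0)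
      have h1 : (x : G ⧸ M) ∈ Ω := by
        refine ⟨x.2, ?_⟩
        have h2 : x ^ p = 1 := by rw [← hx]; exact pow_orderOf_eq_one x
        exact congrArg Subtype.val h2
      rw [h, mem_bot] at h1
      have h2 : x = 1 := Subtype.ext h1
      rw [h2, orderOf_one] at hx
      exact hp.one_lt.ne hx
    · intro x hx
      rw [← h] at hx
      exact hx.2
  constructor
  · intro x hx
    have h1 := hexp (π x) (mem_map_of_mem π hx)
    rw [← hker, MonoidHom.mem_ker, map_pow]
    exact h1
  · intro x hx y hy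
    have h1 := hcomm (π x) (mem_map_of_mem π hx) (π y) (mem_map_of_mem π hy)
    rw [← hker, MonoidHom.mem_ker, map_mul, map_mul, map_mul, map_inv, map_inv, h1]
    group

/-- **M10** -/
theorem m10 : S_M10 := by
  intro p hp hp2 G _ _ M T K₀ hT hMT he hc hgen
  have hfact : Fact p.Prime := ⟨hp⟩
  obtain ⟨hpow, hcom⟩ := chief_elem hp hT hMT
  obtain ⟨hM, hTn, hlt, hch⟩ := hMT
  refine ⟨?_, hcom⟩
  -- `x ↦ x ^ p` is multiplicative on `T`
  have hmul : ∀ x ∈ T, ∀ y ∈ T, (x * y) ^ p = x ^ p * y ^ p := by
    intro x hx y hy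
    set z := y * x * y⁻¹ * x⁻¹ with hz
    have hzM : z ∈ M := hcom y hy x hx
    have h1 : y * x = z * (x * y) := by rw [hz]; group
    have h2 := mul_pow_class_two x y z h1 (hc z hzM x hx) (hc z hzM y hy)
    have h4 : y ^ p * x = z ^ p * (x * y ^ p) := by
      have h5 : Commute z y := hc z hzM y hy
      have h6 : Commute z x := hc z hzM x hx
      have h7 : ∀ n : ℕ, y ^ n * x = z ^ n * (x * y ^ n) := by
        intro n
        induction n with
        | zero => simp
        | succ n ih =>
          calc y ^ (n + 1) * x = y ^ n * (y * x) := by rw [pow_succ, mul_assoc]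
            _ = y ^ n * (z * (x * y)) := by rw [h1]
            _ = z * (y ^ n * (x * y)) := by
                rw [← mul_assoc, ← (h5.pow_right n).eq, mul_assoc]
            _ = z * ((y ^ n * x) * y) := by rw [mul_assoc (y ^ n)]
            _ = z * (z ^ n * (x * y ^ n) * y) := by rw [ih]
            _ = z ^ (n + 1) * (x * y ^ (n + 1)) := by
                rw [pow_succ' z, pow_succ y]
                simp only [mul_assoc]
      exact h7 p
    have h5 : z ^ p = 1 := by
      rw [← hc (y ^ p) (hpow y hy) x hx] at h4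
      exact (mul_eq_right.1 h4.symm)
    rw [h2]
    obtain ⟨k, hk⟩ : p ∣ p.choose 2 := hp.dvd_choose_self (by norm_num) (by
      rcases hp.two_le.lt_or_eq with h | h
      · exact h
      · exact absurd h.symm hp2)
    rw [hk, pow_mul, h5, one_pow, mul_one]
  let Ω : Subgroup G :=
    { carrier := {x | x ∈ T ∧ x ^ p = 1}
      one_mem' := ⟨T.one_mem, one_pow _⟩
      mul_mem' := by
        rintro x y ⟨hx, hx1⟩ ⟨hy, hy1⟩
        exact ⟨T.mul_mem hx hy, by rw [hmul x hx y hy, hx1, hy1, one_mul]⟩
      inv_mem' := by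
        rintro x ⟨hx, hx1⟩
        exact ⟨T.inv_mem hx, by rw [inv_pow, hx1, inv_one]⟩ }
  have hle : T ≤ Ω := by
    conv_lhs => rw [hgen]
    rw [closure_le]
    rintro c ⟨e, t, m, heK, hm, hem, ht, rfl⟩
    have h1 : e * t⁻¹ * e⁻¹ ∈ T := hTn.conj_mem _ (T.inv_mem ht) e
    have h2 : t * e * t⁻¹ * e⁻¹ ∈ T := by
      have := T.mul_mem ht h1
      have h3 : t * (e * t⁻¹ * e⁻¹) = t * e * t⁻¹ * e⁻¹ := by group
      rwa [h3] at this
    refine ⟨h2, ?_⟩
    have h3 := hmul t⁻¹ (T.inv_mem ht) _ h2
    have h4 : t⁻¹ * (t * e * t⁻¹ * e⁻¹) = e * t⁻¹ * e⁻¹ := by group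
    rw [h4, conj_pow] at h3
    have h5 : e * (t⁻¹) ^ p = (t⁻¹) ^ p * e :=
      he e m heK hm hem _ (hpow _ (T.inv_mem ht))
    rw [h5, mul_assoc, mul_inv_cancel, mul_one] at h3
    exact (mul_eq_left.1 h3.symm)
  intro x hx
  exact (hle hx).2

end Q71.TN_M10
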