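import Mathlib
import Pool.Agent.Q2.TN.Stm

/-! Project TN (helper2), job M4 (helper71). -/

set_option autoImplicit false

namespace Q71.TN_M4

open Q2.TN Subgroup

/-- **M4** -/
theorem m4 (h1 : S_M1) (h3 : S_M3) : S_M4 := by
  intro p hp G _ _ M
  rintro x ⟨m, hm, rfl⟩
  unfold superRes
  rw [mem_sInf]
  rintro N ⟨hN, hNp⟩
  let φ : M →* G ⧸ N := (QuotientGroup.mk' N).comp M.subtype
  have h4 : IsPSS p (M ⧸ φ.ker) :=
    h1 p hp φ.range (M ⧸ φ.ker) (QuotientGroup.quotientKerEquivRange φ).symm.toMonoidHom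
      (QuotientGroup.quotientKerEquivRange φ).symm.surjective (h3 p hp (G ⧸ N) hNp φ.range)
  have h5 : m ∈ φ.ker := by
    have hm' : m ∈ superRes p M := hm
    unfold superRes at hm'
    rw [mem_sInf] at hm'
    exact hm' _ ⟨inferInstance, h4⟩
  have h6 : QuotientGroup.mk' N (m : G) = 1 := h5
  rw [← MonoidHom.mem_ker, QuotientGroup.ker_mk'] at h6
  exact h6

end Q71.TN_M4
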