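import Pool.Agent.Q201.AR.Stm

/-!
# Project AR, job A: existence of the definitionally equivalent theory
-/

set_option autoImplicit false

namespace Pool.Agent.Q71.AR_A

open FirstOrder FirstOrder.Language Pool.Agent.Helper227.EN Q201.AR

/-- the sentence `∀ v ∃! y, φ (v, y)` -/
noncomputable def funSent {L : FirstOrder.Language.{0, 0}} {n : ℕ} (φ : L.Formula (Fin (n + 1))) :
    L.Sentence :=
  Formula.iAlls (α := Empty) (Fin n) (Formula.iExsUnique (α := Empty ⊕ Fin n) (Fin 1)
    (φ.relabel (Fin.lastCases (Sum.inr 0) (fun i => Sum.inl (Sum.inr i)) :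
      Fin (n + 1) → (Empty ⊕ Fin n) ⊕ Fin 1)))

lemma realize_funSent {L : FirstOrder.Language.{0, 0}} {n : ℕ} (φ : L.Formula (Fin (n + 1)))
    (M : Type) [L.Structure M] :
    M ⊨ funSent φ ↔ ∀ v : Fin n → M, ∃! y, φ.Realize (app v y) := by
  have hcomp : ∀ (v : Fin n → M) (w : Fin 1 → M),
      (Sum.elim (Sum.elim (default : Empty → M) v) w) ∘
        (Fin.lastCases (Sum.inr 0) (fun i => Sum.inl (Sum.inr i)) :
          Fin (n + 1) → (Empty ⊕ Fin n) ⊕ Fin 1) = app v (w 0) := by
    intro v w
    funext i
    unfold app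
    refine Fin.lastCases ?_ (fun i => ?_) i
    · simp
    · simp
  unfold Sentence.Realize funSent
  rw [Formula.realize_iAlls]
  refine forall_congr' fun v => ?_
  rw [Formula.realize_iExsUnique]
  constructor
  · rintro ⟨w, hw, huniq⟩
    refine ⟨w 0, ?_, fun y hy => ?_⟩
    · show φ.Realize (app v (w 0))
      have := hw
      simp only [Formula.realize_relabel, hcomp] at this
      exact this
    · have h1 := huniq (fun _ => y) (by
        show Formula.Realize _ _
        simp only [Formula.realize_relabel, hcomp]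
        exact hy)
      exact congrFun h1 0
  · rintro ⟨y, hy, huniq⟩
    refine ⟨fun _ => y, ?_, fun w hw => ?_⟩
    · show Formula.Realize _ _
      simp only [Formula.realize_relabel, hcomp]
      exact hy
    · funext i
      have h1 : φ.Realize (app v (w 0)) := by
        have := hw
        simp only [Formula.realize_relabel, hcomp] at this
        exact this
      have h2 := huniq (w 0) h1
      have h3 : i = 0 := Subsingleton.elim _ _
      rw [h3]
      exact h2

/-- the sentence `∀ v, (χ v ↔ R v)` -/
noncomputable def relSent {L : FirstOrder.Language.{0, 0}} {n : ℕ} (χ : L.Formula (Fin n))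
    (R : L.Relations n) : L.Sentence :=
  Formula.iAlls (α := Empty) (Fin n)
    ((χ.iff (Relations.formula R fun i : Fin n => (Term.var i : L.Term (Fin n)))).relabel
      (Sum.inr : Fin n → Empty ⊕ Fin n))

lemma realize_relSent {L : FirstOrder.Language.{0, 0}} {n : ℕ} (χ : L.Formula (Fin n))
    (R : L.Relations n) (M : Type) [L.Structure M] :
    M ⊨ relSent χ R ↔ ∀ v : Fin n → M, χ.Realize v ↔ Structure.RelMap R v := by
  unfold Sentence.Realize relSent
  rw [Formula.realize_iAlls]
  refine forall_congr' fun v => ?_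
  rw [Formula.realize_relabel, Formula.realize_iff, Formula.realize_rel]
  have h1 : (Sum.elim (default : Empty → M) v) ∘ (Sum.inr : Fin n → Empty ⊕ Fin n) = v := by
    funext i
    rfl
  rw [h1]
  simp only [Term.realize_var]

theorem t_A : S_A := by
  intro hT L L' hemp T₀ τ σ h
  set T' : L'.Theory := {θ : L'.Sentence | ∀ (M : Type) [L.Structure M] [L'.Structure M]
    [Nonempty M], M ⊨ T₀ → τ.Holds M → M ⊨ θ} with hT'
  refine ⟨T', ?_, ?_, ?_⟩
  · intro M _ _ _ n f
    exact ((hemp n).false f).elim
  · intro M _ _ hM n f v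
    have h1 : funSent (σ.fn f) ∈ T' := by
      intro N _ _ _ hN hτ
      rw [realize_funSent]
      intro v
      have hσ := h N hN hτ
      refine ⟨Structure.funMap f v, (hσ.fn f v _).2 rfl, fun y hy => ((hσ.fn f v y).1 hy).symm⟩
    have h2 : M ⊨ funSent (σ.fn f) := (Theory.model_iff T').1 hM _ h1
    rw [realize_funSent] at h2
    exact h2 v
  · intro N _ _ _
    constructor
    · rintro ⟨hN, hτ⟩
      refine ⟨(Theory.model_iff T').2 fun θ hθ => ?_, h N hN hτ⟩
      exact hθ N hN hτ
    · rintro ⟨hN, hσ⟩
      refine ⟨(Theory.model_iff T₀).2 fun θ hθ => ?_, ?_⟩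
      · obtain ⟨ψ, hψ⟩ := hT L' L σ Empty θ
        have h1 : (ψ : L'.Sentence) ∈ T' := by
          intro M _ _ _ hM hτ
          have h2 : M ⊨ θ := (Theory.model_iff T₀).1 hM _ hθ
          exact (hψ M (h M hM hτ) default).2 h2
        have h3 : N ⊨ (ψ : L'.Sentence) := (Theory.model_iff T').1 hN _ h1
        exact (hψ N hσ default).1 h3
      · refine ⟨fun {n} f => ((hemp n).false f).elim, fun {n} R v => ?_⟩
        obtain ⟨χ, hχ⟩ := hT L' L σ (Fin n) (τ.rel R)
        have h1 : relSent χ R ∈ T' := by
          intro M _ _ _ hM hτ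
          rw [realize_relSent]
          intro v
          exact (hχ M (h M hM hτ) v).trans (hτ.rel R v)
        have h3 : N ⊨ relSent χ R := (Theory.model_iff T').1 hN _ h1
        rw [realize_relSent] at h3
        exact (hχ N hσ v).symm.trans (h3 v)

end Pool.Agent.Q71.AR_A
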