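import Pool.Agent.Q201.AR.Stm2

set_option autoImplicit false

/-!
Project AR, part 2 (MP_f714b8_lc), job ARF: definable relations of a computable structure are
arithmetical.
-/

open FirstOrder FirstOrder.Language Pool.Agent.Helper227.EN Q201.AR

namespace Pool.Agent.Q71.AR_ARF

lemma pfin {α : Type} [Primcodable α] {n : ℕ} {f : α → Fin n → ℕ}
    (hf : ∀ i, Primrec fun a => f a i) : Primrec f :=
  have h : Primrec₂ fun (i : Fin n) (a : α) => f a i := Primrec.fin_curry₁.2 hf
  Primrec.fin_curry.2 h.swap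

/-- projections -/
lemma papp {n : ℕ} (i : Fin n) : Primrec fun v : Fin n → ℕ => v i :=
  Primrec.fin_app.comp Primrec.id (Primrec.const i)

section

variable {r : ℕ} {ar : Fin r → ℕ} (s : (Sig ar).Structure ℕ)

/-- evaluation of terms (all terms are variables) -/
lemma pterm {n m : ℕ} (t : (Sig ar).Term (Fin n ⊕ Fin m)) :
    Primrec fun q : (Fin n → ℕ) × (Fin m → ℕ) =>
      @Term.realize (Sig ar) ℕ s _ (Sum.elim q.1 q.2) t := by
  cases t with
  | var x =>
    rcases x with i | j
    · exact (papp i).comp Primrec.fst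
    · exact (papp j).comp Primrec.snd
  | func f _ => exact f.elim

theorem ex_arith (hcl : S_ARCL) (hs : IsComputable s) {n m : ℕ}
    (φ : (Sig ar).BoundedFormula (Fin n) m) :
    Arith fun q : (Fin n → ℕ) × (Fin m → ℕ) =>
      @BoundedFormula.Realize (Sig ar) ℕ s (Fin n) m φ q.1 q.2 := by
  obtain ⟨hcomp, hdec, hnot, hand, hex⟩ := hcl
  induction φ with
  | @falsum m =>
    have h0 : ComputablePred fun _ : (Fin n → ℕ) × (Fin m → ℕ) => False :=
      Computable.computablePred (by simpa using (Primrec.const false).to_comp)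
    exact hdec _ _ h0
  | equal t₁ t₂ =>
    refine hdec _ _ ?_
    exact (Primrec.eq.comp (pterm s t₁) (pterm s t₂)).computablePred
  | @rel m l R ts =>
    obtain ⟨j, rfl⟩ := R
    refine hcomp _ _ _ (fun (q : (Fin n → ℕ) × (Fin m → ℕ)) i =>
      @Term.realize (Sig ar) ℕ s _ (Sum.elim q.1 q.2) (ts i)) (pfin fun i => pterm s (ts i)).to_comp
      (hdec _ _ (hs j))
  | imp φ ψ ihφ ihψ =>
    have h := hnot _ _ (hand _ _ _ ihφ (hnot _ _ ihψ))
    refine (congrArg Arith ?_).mp h
    funext q
    simp only [BoundedFormula.realize_imp, eq_iff_iff]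
    tauto
  | @all m φ ih =>
    have hmap : Computable fun p : ((Fin n → ℕ) × (Fin m → ℕ)) × ℕ =>
        ((p.1.1, (Fin.snoc (α := fun _ => ℕ) p.1.2 p.2 : Fin (m + 1) → ℕ)) :
          (Fin n → ℕ) × (Fin (m + 1) → ℕ)) := by
      refine (Primrec.pair (Primrec.fst.comp Primrec.fst) (pfin fun i => ?_)).to_comp
      refine Fin.lastCases ?_ (fun i => ?_) i
      · simpa using Primrec.snd
      · simpa using (papp i).comp (Primrec.snd.comp Primrec.fst)
    have h1 := hcomp _ _ _ _ hmap (hnot _ _ ih)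
    have h := hnot _ _ (hex _ _ _ h1)
    refine (congrArg Arith ?_).mp h
    funext q
    simp only [BoundedFormula.realize_all, not_exists, not_not]

theorem form_arith (hcl : S_ARCL) (hs : IsComputable s) {n : ℕ} (φ : (Sig ar).Formula (Fin n)) :
    Arith fun v : Fin n → ℕ => @Formula.Realize (Sig ar) ℕ s (Fin n) φ v := by
  have h := hcl.1 (Fin n → ℕ) _ _ (fun v : Fin n → ℕ => (v, (default : Fin 0 → ℕ)))
    (Primrec.pair Primrec.id (Primrec.const _)).to_comp (ex_arith s hcl hs φ)
  convert h using 1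
  funext v
  exact congrArg (fun xs : Fin 0 → ℕ => @BoundedFormula.Realize (Sig ar) ℕ s (Fin n) 0 φ v xs)
    (Subsingleton.elim _ _)

end

theorem t_ARF : S_ARF := by
  intro hcl T₀ r ar ⟨T, d, d', hde, s, a, hT, hs, ha, hns⟩
  refine ⟨a, ?_, ?_, ?_, hns⟩
  · exact ((@hde.2.2 ℕ a s ⟨0⟩).2 ⟨hT, ha⟩).1
  · intro n f
    refine (congrArg Arith ?_).mp (form_arith s hcl hs (d'.fn f))
    funext v
    have h := @Defs.Holds.fn (Sig ar) LA d' ℕ s a ha n f (fun i => v i.castSucc) (v (Fin.last n))
    have hv : app (fun i : Fin n => v i.castSucc) (v (Fin.last n)) = v := by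
      funext i
      refine Fin.lastCases ?_ (fun i => ?_) i <;> simp [app]
    rw [hv] at h
    exact propext h
  · intro n R
    refine (congrArg Arith ?_).mp (form_arith s hcl hs (d'.rel R))
    funext v
    exact propext (@Defs.Holds.rel (Sig ar) LA d' ℕ s a ha n R v)

end Pool.Agent.Q71.AR_ARF
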