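import Mathlib
import Pool.Agent.Q80.AC.Stm

/-! Project AC (helper80), job AC-LMUL (helper71). -/

set_option autoImplicit false

open MeasureTheory Topology Filter
open scoped ENNReal NNReal

namespace Q71.AC_LMUL

open Pool.Agent.Q80.AC

theorem lam_coe {H : Type} [Group H] [MeasurableSpace H] [MeasurableMul H] (m : Measure H)
    [m.IsMulLeftInvariant] (s : H) (ξ : Lp ℂ 2 m) :
    (lam m s ξ : H → ℂ) =ᵐ[m] fun x => ξ (s⁻¹ * x) :=
  Lp.coeFn_compMeasurePreserving ξ (measurePreserving_mul_left m s⁻¹)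

theorem lam_mul {H : Type} [Group H] [MeasurableSpace H] [MeasurableMul H] (m : Measure H)
    [m.IsMulLeftInvariant] (s r : H) (ξ : Lp ℂ 2 m) :
    lam m (s * r) ξ = lam m s (lam m r ξ) := by
  apply Lp.ext
  have h1 := lam_coe m (s * r) ξ
  have h2 := lam_coe m s (lam m r ξ)
  have h3 : (fun x => (lam m r ξ : H → ℂ) (s⁻¹ * x)) =ᵐ[m] fun x => ξ (r⁻¹ * (s⁻¹ * x)) :=
    (measurePreserving_mul_left m s⁻¹).quasiMeasurePreserving.ae_eq_comp (lam_coe m r ξ)
  filter_upwards [h1, h2, h3] with x hx1 hx2 hx3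
  rw [hx1, hx2, hx3, mul_inv_rev, mul_assoc]

/-- **AC-LMUL** -/
theorem lmul : S_LMUL := by
  intro H _ _ _ _ _ _ _ _ m _ μ ν _ _ _
  ext1 ξ
  rw [ContinuousLinearMap.comp_apply, lamM_apply, lamM_apply]
  have hmeas : AEMeasurable (fun p : H × H => p.1 * p.2) (μ.prod ν) :=
    (measurable_fst.mul measurable_snd).aemeasurable
  have hconv : μ ∗ₘ ν = (μ.prod ν).map (fun p : H × H => p.1 * p.2) := rfl
  have hint := lam_int m (μ ∗ₘ ν) ξ
  rw [hconv] at hint ⊢
  rw [integral_map hmeas hint.aestronglyMeasurable]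
  have hint2 : Integrable (fun p : H × H => lam m (p.1 * p.2) ξ) (μ.prod ν) :=
    (integrable_map_measure hint.aestronglyMeasurable hmeas).1 hint
  rw [integral_prod _ hint2]
  congr 1
  ext1 s
  simp only
  simp_rw [lam_mul]
  rw [lamM_apply]
  exact (lam m s).toContinuousLinearMap.integral_comp_comm (lam_int m ν ξ)

end Q71.AC_LMUL
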