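import Mathlib

open Filter Topology Complex

namespace Q71.BidiskCyclic

/-- the power series `∑ c_j z^{j+1}` -/
noncomputable def PS (c : ℕ → ℂ) (z : ℂ) : ℂ := ∑' j, c j * z ^ (j + 1)

lemma hasSum_geo {x : ℝ} (hx0 : 0 ≤ x) (hx : x < 1) :
    HasSum (fun j : ℕ => ((j : ℝ) + 1) * x ^ j) (1 / (1 - x) ^ 2) := by
  have h1 := hasSum_coe_mul_geometric_of_norm_lt_one (r := x) (by rwa [Real.norm_eq_abs, abs_of_nonneg hx0])
  have h2 := hasSum_geometric_of_lt_one hx0 hx
  have h3 := h1.add h2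
  have h4 : x / (1 - x) ^ 2 + (1 - x)⁻¹ = 1 / (1 - x) ^ 2 := by
    have : 1 - x ≠ 0 := by linarith
    field_simp
    ring
  rw [h4] at h3
  have h5 : (fun j : ℕ => ((j : ℝ) + 1) * x ^ j) = fun j : ℕ => (j : ℝ) * x ^ j + x ^ j := by
    funext j
    ring
  rw [h5]
  exact h3

lemma term_bound {c : ℕ → ℂ} {C : ℝ} (hc : ∀ j, ‖c j‖ ≤ C * (j + 2)) {z : ℂ} {x : ℝ}
    (hz : ‖z‖ ≤ x) (hx : x < 1) (j : ℕ) :
    ‖c j * z ^ (j + 1)‖ ≤ 2 * C * (((j : ℝ) + 1) * x ^ j) := by
  have hx0 : 0 ≤ x := (norm_nonneg z).trans hz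
  have hC : 0 ≤ C := by
    have := (norm_nonneg _).trans (hc 0)
    norm_num at this
    linarith
  rw [norm_mul, norm_pow]
  have h1 : ‖z‖ ^ (j + 1) ≤ x ^ (j + 1) := by gcongr
  have h2 : x ^ (j + 1) ≤ x ^ j := pow_le_pow_of_le_one hx0 hx.le (by omega)
  calc ‖c j‖ * ‖z‖ ^ (j + 1) ≤ (C * (j + 2)) * x ^ j := by
        apply mul_le_mul (hc j) (h1.trans h2) (by positivity) (by positivity)
    _ ≤ 2 * C * (((j : ℝ) + 1) * x ^ j) := by
        have : 0 ≤ C * x ^ j * j := by positivity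
        nlinarith

lemma PS_summable {c : ℕ → ℂ} {C : ℝ} (hc : ∀ j, ‖c j‖ ≤ C * (j + 2)) {z : ℂ} (hz : ‖z‖ < 1) :
    Summable fun j => c j * z ^ (j + 1) :=
  Summable.of_norm_bounded ((hasSum_geo (norm_nonneg z) hz).summable.mul_left (2 * C))
    (term_bound hc le_rfl hz)

lemma PS_bound {c : ℕ → ℂ} {C : ℝ} (hc : ∀ j, ‖c j‖ ≤ C * (j + 2)) {z : ℂ} (hz : ‖z‖ < 1) :
    ‖PS c z‖ ≤ 2 * C * (1 / (1 - ‖z‖) ^ 2) := by
  unfold PS
  exact tsum_of_norm_bounded ((hasSum_geo (norm_nonneg z) hz).mul_left (2 * C))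
    (term_bound hc le_rfl hz)

lemma PS_diff {c : ℕ → ℂ} {C : ℝ} (hc : ∀ j, ‖c j‖ ≤ C * (j + 2)) {z : ℂ} (hz : ‖z‖ < 1) :
    DifferentiableAt ℂ (PS c) z := by
  obtain ⟨x, hx1, hx2⟩ := exists_between hz
  have hx0 : 0 ≤ x := (norm_nonneg z).trans hx1.le
  have h1 : DifferentiableOn ℂ (fun w => ∑' j, c j * w ^ (j + 1)) (Metric.ball 0 x) := by
    apply differentiableOn_tsum_of_summable_norm ((hasSum_geo hx0 hx2).summable.mul_left (2 * C))
    · intro i
      fun_prop
    · exact Metric.isOpen_ball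
    · intro i w hw
      exact term_bound hc (by simpa using (mem_ball_zero_iff.mp hw).le) hx2 i
  exact h1.differentiableAt (Metric.isOpen_ball.mem_nhds (by simpa using hx1))

/-- harmonicity -/
def Harm (b : ℕ → ℕ → ℂ) : Prop := ∀ j k, 2 * b j k = b (j + 1) k + b j (k + 1)

lemma G_summable {b : ℕ → ℕ → ℂ} {C : ℝ} (hb : ∀ j k, ‖b j k‖ ≤ C * (j + k + 2)) {z w : ℂ}
    (hz : ‖z‖ < 1) (hw : ‖w‖ < 1) :
    Summable fun x : ℕ × ℕ => b x.1 x.2 * (z ^ x.1 * w ^ x.2) := by
  have hC : 0 ≤ C := by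
    have := (norm_nonneg _).trans (hb 0 0)
    norm_num at this
    linarith
  have h1 := (hasSum_geo (norm_nonneg z) hz).summable
  have h2 := (hasSum_geo (norm_nonneg w) hw).summable
  have h3 := (h1.mul_of_nonneg h2 (fun _ => by positivity) (fun _ => by positivity)).mul_left (2 * C)
  refine Summable.of_norm_bounded h3 ?_
  rintro ⟨j, k⟩
  simp only [norm_mul, norm_pow]
  calc ‖b j k‖ * (‖z‖ ^ j * ‖w‖ ^ k) ≤ (C * (j + k + 2)) * (‖z‖ ^ j * ‖w‖ ^ k) := by
        gcongr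
        exact hb j k
    _ ≤ (2 * C * ((j + 1) * (k + 1))) * (‖z‖ ^ j * ‖w‖ ^ k) := by
        have h4 : C * (j + k + 2) ≤ 2 * C * ((j + 1) * (k + 1)) := by
          have : (0 : ℝ) ≤ C * j := by positivity
          have : (0 : ℝ) ≤ C * k := by positivity
          have : (0 : ℝ) ≤ C * (j * k) := by positivity
          nlinarith
        exact mul_le_mul_of_nonneg_right h4 (by positivity)
    _ = _ := by ring

lemma functional {b : ℕ → ℕ → ℂ} {C : ℝ} (hb : ∀ j k, ‖b j k‖ ≤ C * (j + k + 2))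
    (hh : Harm b) {z w : ℂ} (hz : ‖z‖ < 1) (hw : ‖w‖ < 1) (hzw : z + w = 2 * z * w) :
    PS (fun j => b j 0) z + PS (fun k => b 0 k) w = 0 := by
  have hS := G_summable hb hz hw
  have hb0 : ∀ j, ‖b j 0‖ ≤ C * (j + 2) := fun j => by simpa using hb j 0
  have hb1 : ∀ k, ‖b 0 k‖ ≤ C * (k + 2) := fun k => by simpa using hb 0 k
  -- shifted sums
  have hS1 : Summable fun x : ℕ × ℕ => b x.1 (x.2 + 1) * (z ^ (x.1 + 1) * w ^ (x.2 + 1)) := by
    have := (hS.comp_injective (i := fun x : ℕ × ℕ => (x.1, x.2 + 1))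
      (fun x y h => by
        simp only [Prod.mk.injEq, Nat.add_right_cancel_iff] at h
        exact Prod.ext h.1 h.2)).mul_left z
    refine this.congr fun x => ?_
    simp only [Function.comp]
    ring
  have hS2 : Summable fun x : ℕ × ℕ => b (x.1 + 1) x.2 * (z ^ (x.1 + 1) * w ^ (x.2 + 1)) := by
    have := (hS.comp_injective (i := fun x : ℕ × ℕ => (x.1 + 1, x.2))
      (fun x y h => by
        simp only [Prod.mk.injEq, Nat.add_right_cancel_iff] at h
        exact Prod.ext h.1 h.2)).mul_left w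
    refine this.congr fun x => ?_
    simp only [Function.comp]
    ring
  set S := ∑' x : ℕ × ℕ, b x.1 x.2 * (z ^ x.1 * w ^ x.2) with hSdef
  set S1 := ∑' x : ℕ × ℕ, b x.1 (x.2 + 1) * (z ^ (x.1 + 1) * w ^ (x.2 + 1)) with hS1def
  set S2 := ∑' x : ℕ × ℕ, b (x.1 + 1) x.2 * (z ^ (x.1 + 1) * w ^ (x.2 + 1)) with hS2def
  -- z S = A + S1
  have e1 : z * S = PS (fun j => b j 0) z + S1 := by
    have hSz : Summable fun x : ℕ × ℕ => b x.1 x.2 * (z ^ (x.1 + 1) * w ^ x.2) := by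
      refine (hS.mul_left z).congr fun x => ?_
      ring
    have h1 : z * S = ∑' x : ℕ × ℕ, b x.1 x.2 * (z ^ (x.1 + 1) * w ^ x.2) := by
      rw [hSdef, ← tsum_mul_left]
      apply tsum_congr
      intro x
      ring
    rw [h1, hSz.tsum_prod' (fun j => hSz.comp_injective (i := fun k => (j, k))
      (fun x y h => by simpa using h)),
      hS1def, hS1.tsum_prod' (fun j => hS1.comp_injective (i := fun k => (j, k))
      (fun x y h => by simpa using h))]
    unfold PS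
    rw [← (PS_summable hb0 hz).tsum_add (hS1.prod)]
    apply tsum_congr
    intro j
    have h2 : Summable fun k => b j k * (z ^ (j + 1) * w ^ k) :=
      hSz.comp_injective (i := fun k => (j, k)) (fun x y h => by simpa using h)
    rw [h2.tsum_eq_zero_add]
    simp
  have e2 : w * S = PS (fun k => b 0 k) w + S2 := by
    have hSw : Summable fun x : ℕ × ℕ => b x.1 x.2 * (z ^ x.1 * w ^ (x.2 + 1)) := by
      refine (hS.mul_left w).congr fun x => ?_
      ring
    have h1 : w * S = ∑' x : ℕ × ℕ, b x.1 x.2 * (z ^ x.1 * w ^ (x.2 + 1)) := by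
      rw [hSdef, ← tsum_mul_left]
      apply tsum_congr
      intro x
      ring
    rw [h1, hSw.tsum_prod' (fun j => hSw.comp_injective (i := fun k => (j, k))
      (fun x y h => by simpa using h)),
      hS2def, hS2.tsum_prod' (fun j => hS2.comp_injective (i := fun k => (j, k))
      (fun x y h => by simpa using h))]
    rw [hSw.prod.tsum_eq_zero_add]
    unfold PS
    simp
  have e3 : S1 + S2 = 2 * z * w * S := by
    rw [hS1def, hS2def, ← hS1.tsum_add hS2, hSdef, ← tsum_mul_left]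
    apply tsum_congr
    intro x
    have := hh x.1 x.2
    calc _ = (b (x.1 + 1) x.2 + b x.1 (x.2 + 1)) * (z ^ (x.1 + 1) * w ^ (x.2 + 1)) := by ring
      _ = _ := by rw [← this]; ring
  have e4 : (z + w) * S = 2 * z * w * S := by rw [hzw]
  linear_combination e4 - e1 - e2 - e3

/-- the entire function attached to a harmonic array -/
noncomputable def E (b : ℕ → ℕ → ℂ) (t : ℂ) : ℂ :=
  if 0 ≤ t.re then PS (fun j => b j 0) (t / (1 + t)) else -PS (fun k => b 0 k) (t / (t - 1))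

lemma norm1 {t : ℂ} (ht : -1 / 2 < t.re) : ‖t / (1 + t)‖ < 1 := by
  have h0 : 1 + t ≠ 0 := by
    intro h
    have := congrArg Complex.re h
    simp at this
    linarith
  rw [norm_div, div_lt_one (norm_pos_iff.mpr h0)]
  rw [← sq_lt_sq₀ (norm_nonneg _) (norm_nonneg _), ← Complex.normSq_eq_norm_sq,
    ← Complex.normSq_eq_norm_sq, Complex.normSq_apply, Complex.normSq_apply]
  simp
  nlinarith

lemma norm2 {t : ℂ} (ht : t.re < 1 / 2) : ‖t / (t - 1)‖ < 1 := by
  have h0 : t - 1 ≠ 0 := by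
    intro h
    have := congrArg Complex.re h
    simp at this
    linarith
  rw [norm_div, div_lt_one (norm_pos_iff.mpr h0)]
  rw [← sq_lt_sq₀ (norm_nonneg _) (norm_nonneg _), ← Complex.normSq_eq_norm_sq,
    ← Complex.normSq_eq_norm_sq, Complex.normSq_apply, Complex.normSq_apply]
  simp
  nlinarith

lemma ne1 {t : ℂ} (ht : -1 / 2 < t.re) : 1 + t ≠ 0 := by
  intro h
  have := congrArg Complex.re h
  simp at this
  linarith

lemma ne2 {t : ℂ} (ht : t.re < 1 / 2) : t - 1 ≠ 0 := by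
  intro h
  have := congrArg Complex.re h
  simp at this
  linarith

lemma glue {b : ℕ → ℕ → ℂ} {C : ℝ} (hb : ∀ j k, ‖b j k‖ ≤ C * (j + k + 2))
    (hh : Harm b) {t : ℂ} (h1 : -1 / 2 < t.re) (h2 : t.re < 1 / 2) :
    PS (fun j => b j 0) (t / (1 + t)) = -PS (fun k => b 0 k) (t / (t - 1)) := by
  have := functional hb hh (norm1 h1) (norm2 h2) (by
    have := ne1 h1
    have := ne2 h2
    field_simp
    ring)
  linear_combination this

lemma E_right {b : ℕ → ℕ → ℂ} {C : ℝ} (hb : ∀ j k, ‖b j k‖ ≤ C * (j + k + 2))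
    (hh : Harm b) {t : ℂ} (h1 : -1 / 2 < t.re) : E b t = PS (fun j => b j 0) (t / (1 + t)) := by
  unfold E
  split_ifs with h
  · rfl
  · exact (glue hb hh h1 (by linarith)).symm

lemma E_left {b : ℕ → ℕ → ℂ} {C : ℝ} (hb : ∀ j k, ‖b j k‖ ≤ C * (j + k + 2))
    (hh : Harm b) {t : ℂ} (h1 : t.re < 1 / 2) : E b t = -PS (fun k => b 0 k) (t / (t - 1)) := by
  unfold E
  split_ifs with h
  · exact glue hb hh (by linarith) h1
  · rfl

lemma E_diff {b : ℕ → ℕ → ℂ} {C : ℝ} (hb : ∀ j k, ‖b j k‖ ≤ C * (j + k + 2))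
    (hh : Harm b) : Differentiable ℂ (E b) := by
  intro t
  have hb0 : ∀ j, ‖b j 0‖ ≤ C * (j + 2) := fun j => by simpa using hb j 0
  have hb1 : ∀ k, ‖b 0 k‖ ≤ C * (k + 2) := fun k => by simpa using hb 0 k
  by_cases h : -1 / 2 < t.re
  · have h1 : E b =ᶠ[𝓝 t] fun s => PS (fun j => b j 0) (s / (1 + s)) := by
      have : {s : ℂ | -1 / 2 < s.re} ∈ 𝓝 t := (isOpen_lt continuous_const continuous_re).mem_nhds h
      filter_upwards [this] with s hs
      exact E_right hb hh hs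
    refine DifferentiableAt.congr_of_eventuallyEq ?_ h1
    have h2 : DifferentiableAt ℂ (fun s : ℂ => s / (1 + s)) t := by
      apply DifferentiableAt.div differentiableAt_id (by fun_prop) (ne1 h)
    exact (PS_diff hb0 (norm1 h)).comp t h2
  · have ht : t.re < 1 / 2 := by linarith
    have h1 : E b =ᶠ[𝓝 t] fun s => -PS (fun k => b 0 k) (s / (s - 1)) := by
      have : {s : ℂ | s.re < 1 / 2} ∈ 𝓝 t := (isOpen_lt continuous_re continuous_const).mem_nhds ht
      filter_upwards [this] with s hs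
      exact E_left hb hh hs
    refine DifferentiableAt.congr_of_eventuallyEq ?_ h1
    have h2 : DifferentiableAt ℂ (fun s : ℂ => s / (s - 1)) t :=
      DifferentiableAt.div (c := fun s : ℂ => s) (d := fun s : ℂ => s - 1) (by fun_prop)
        (by fun_prop) (ne2 ht)
    exact ((PS_diff hb1 (norm2 ht)).comp t h2).neg

lemma gap {u v : ℂ} (hv : v ≠ 0) (h : ‖u‖ ^ 2 + 1 ≤ ‖v‖ ^ 2) :
    1 / (1 - ‖u / v‖) ^ 2 ≤ 4 * ‖v‖ ^ 4 := by
  have hv0 : 0 < ‖v‖ := norm_pos_iff.mpr hv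
  have hu0 := norm_nonneg u
  have h1 : ‖u‖ < ‖v‖ := by nlinarith
  rw [norm_div]
  have h2 : 1 - ‖u‖ / ‖v‖ = (‖v‖ - ‖u‖) / ‖v‖ := by field_simp
  rw [h2]
  have h3 : 1 ≤ 2 * ‖v‖ * (‖v‖ - ‖u‖) := by nlinarith
  have h4 : 0 < ‖v‖ - ‖u‖ := by linarith
  rw [div_pow, one_div_div, div_le_iff₀ (by positivity)]
  have h5 : 1 ≤ (2 * ‖v‖ * (‖v‖ - ‖u‖)) ^ 2 := one_le_pow₀ h3
  nlinarith [sq_nonneg (‖v‖)]

lemma E_growth {b : ℕ → ℕ → ℂ} {C : ℝ} (hb : ∀ j k, ‖b j k‖ ≤ C * (j + k + 2))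
    (hh : Harm b) (t : ℂ) : ‖E b t‖ ≤ 8 * C * (1 + ‖t‖) ^ 4 := by
  have hC : 0 ≤ C := by
    have := (norm_nonneg _).trans (hb 0 0)
    norm_num at this
    linarith
  have hb0 : ∀ j, ‖b j 0‖ ≤ C * (j + 2) := fun j => by simpa using hb j 0
  have hb1 : ∀ k, ‖b 0 k‖ ≤ C * (k + 2) := fun k => by simpa using hb 0 k
  by_cases h : 0 ≤ t.re
  · have h' : -1 / 2 < t.re := by linarith
    rw [E_right hb hh h']
    refine (PS_bound hb0 (norm1 h')).trans ?_
    have h1 : 1 / (1 - ‖t / (1 + t)‖) ^ 2 ≤ 4 * ‖1 + t‖ ^ 4 := by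
      apply gap (ne1 h')
      rw [← Complex.normSq_eq_norm_sq, ← Complex.normSq_eq_norm_sq, Complex.normSq_apply,
        Complex.normSq_apply]
      simp
      nlinarith
    have h2 : ‖1 + t‖ ≤ 1 + ‖t‖ := by simpa using norm_add_le 1 t
    calc 2 * C * (1 / (1 - ‖t / (1 + t)‖) ^ 2) ≤ 2 * C * (4 * ‖1 + t‖ ^ 4) := by gcongr
      _ ≤ 2 * C * (4 * (1 + ‖t‖) ^ 4) := by gcongr
      _ = _ := by ring
  · have h' : t.re < 1 / 2 := by linarith
    rw [E_left hb hh h', norm_neg]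
    refine (PS_bound hb1 (norm2 h')).trans ?_
    have h1 : 1 / (1 - ‖t / (t - 1)‖) ^ 2 ≤ 4 * ‖t - 1‖ ^ 4 := by
      apply gap (ne2 h')
      rw [← Complex.normSq_eq_norm_sq, ← Complex.normSq_eq_norm_sq, Complex.normSq_apply,
        Complex.normSq_apply]
      simp
      nlinarith
    have h2 : ‖t - 1‖ ≤ 1 + ‖t‖ := by
      have := norm_sub_le t 1
      rw [norm_one] at this
      linarith
    calc 2 * C * (1 / (1 - ‖t / (t - 1)‖) ^ 2) ≤ 2 * C * (4 * ‖t - 1‖ ^ 4) := by gcongr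
      _ ≤ 2 * C * (4 * (1 + ‖t‖) ^ 4) := by gcongr
      _ = _ := by ring

/-- the square summability of a harmonic array -/
def Sq (b : ℕ → ℕ → ℂ) : Prop :=
  Summable fun J : ℕ × ℕ => ‖b J.1 J.2‖ ^ 2 / ((J.1 : ℝ) + J.2 + 2) ^ 2

lemma Sq.bound {b : ℕ → ℕ → ℂ} (h : Sq b) : ∃ C : ℝ, ∀ j k, ‖b j k‖ ≤ C * (j + k + 2) := by
  refine ⟨Real.sqrt (∑' J : ℕ × ℕ, ‖b J.1 J.2‖ ^ 2 / ((J.1 : ℝ) + J.2 + 2) ^ 2), fun j k => ?_⟩
  have h1 := h.le_tsum (j, k) (fun _ _ => by positivity)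
  simp only at h1
  rw [div_le_iff₀ (by positivity)] at h1
  have h2 := Real.sqrt_le_sqrt h1
  rw [Real.sqrt_sq (norm_nonneg _), Real.sqrt_mul (tsum_nonneg fun _ => by positivity),
    Real.sqrt_sq (by positivity)] at h2
  exact h2

/-- the difference operator -/
def D (b : ℕ → ℕ → ℂ) (j k : ℕ) : ℂ := b (j + 1) k - b j k

lemma D_eq {b : ℕ → ℕ → ℂ} (h : Harm b) (j k : ℕ) : D b j k = b j k - b j (k + 1) := by
  unfold D
  have := h j k
  linear_combination -this

lemma D_harm {b : ℕ → ℕ → ℂ} (h : Harm b) : Harm (D b) := by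
  intro j k
  unfold D
  have h1 := h j k
  have h2 := h (j + 1) k
  linear_combination h2 - h1

lemma D_sq {b : ℕ → ℕ → ℂ} (h : Sq b) : Sq (D b) := by
  unfold Sq at *
  have h1 : Summable fun J : ℕ × ℕ => ‖b (J.1 + 1) J.2‖ ^ 2 / ((J.1 : ℝ) + J.2 + 3) ^ 2 := by
    have := h.comp_injective (i := fun x : ℕ × ℕ => (x.1 + 1, x.2))
      (fun x y h => by
        simp only [Prod.mk.injEq, Nat.add_right_cancel_iff] at h
        exact Prod.ext h.1 h.2)
    refine this.congr fun x => ?_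
    simp only [Function.comp]
    push_cast
    ring
  refine Summable.of_nonneg_of_le (fun _ => by positivity) (fun J => ?_)
    ((h1.mul_left 8).add (h.mul_left 2))
  unfold D
  have h2 : ‖b (J.1 + 1) J.2 - b J.1 J.2‖ ^ 2 ≤ 2 * ‖b (J.1 + 1) J.2‖ ^ 2 + 2 * ‖b J.1 J.2‖ ^ 2 := by
    have := norm_sub_le (b (J.1 + 1) J.2) (b J.1 J.2)
    have h3 := norm_nonneg (b (J.1 + 1) J.2 - b J.1 J.2)
    nlinarith [sq_nonneg (‖b (J.1 + 1) J.2‖ - ‖b J.1 J.2‖)]
  have h4 : 1 / ((J.1 : ℝ) + J.2 + 2) ^ 2 ≤ 4 / ((J.1 : ℝ) + J.2 + 3) ^ 2 := by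
    rw [div_le_div_iff₀ (by positivity) (by positivity)]
    have : (0 : ℝ) ≤ J.1 := by positivity
    have : (0 : ℝ) ≤ J.2 := by positivity
    nlinarith
  have h5 : ‖b (J.1 + 1) J.2‖ ^ 2 / ((J.1 : ℝ) + J.2 + 2) ^ 2 ≤
      4 * (‖b (J.1 + 1) J.2‖ ^ 2 / ((J.1 : ℝ) + J.2 + 3) ^ 2) := by
    calc _ = ‖b (J.1 + 1) J.2‖ ^ 2 * (1 / ((J.1 : ℝ) + J.2 + 2) ^ 2) := by ring
      _ ≤ ‖b (J.1 + 1) J.2‖ ^ 2 * (4 / ((J.1 : ℝ) + J.2 + 3) ^ 2) := by gcongr
      _ = _ := by ring
  calc _ ≤ (2 * ‖b (J.1 + 1) J.2‖ ^ 2 + 2 * ‖b J.1 J.2‖ ^ 2) / ((J.1 : ℝ) + J.2 + 2) ^ 2 := by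
        gcongr
    _ = 2 * (‖b (J.1 + 1) J.2‖ ^ 2 / ((J.1 : ℝ) + J.2 + 2) ^ 2) +
        2 * (‖b J.1 J.2‖ ^ 2 / ((J.1 : ℝ) + J.2 + 2) ^ 2) := by ring
    _ ≤ _ := by linarith

lemma const_zero {c : ℂ} (h : Sq (fun _ _ => c)) : c = 0 := by
  by_contra hc
  unfold Sq at h
  -- compare with the harmonic series
  have hc' : 0 < ‖c‖ ^ 2 := by positivity
  have h1 := h.prod
  simp only at h1
  have h2 : ∀ j : ℕ, ‖c‖ ^ 2 / 16 * (1 / ((j : ℝ) + 1)) ≤
      ∑' k : ℕ, ‖c‖ ^ 2 / ((j : ℝ) + k + 2) ^ 2 := by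
    intro j
    have h3 : Summable fun k : ℕ => ‖c‖ ^ 2 / ((j : ℝ) + k + 2) ^ 2 :=
      h.comp_injective (i := fun k => (j, k)) (fun x y h => by simpa using h)
    have h4 := h3.sum_le_tsum (Finset.range (j + 1)) (fun _ _ => by positivity)
    refine le_trans ?_ h4
    have h5 : ∀ k ∈ Finset.range (j + 1), ‖c‖ ^ 2 / (4 * ((j : ℝ) + 1) ^ 2) ≤
        ‖c‖ ^ 2 / ((j : ℝ) + k + 2) ^ 2 := by
      intro k hk
      have hk' : (k : ℝ) ≤ j := by
        have := Finset.mem_range.mp hk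
        exact_mod_cast (by omega : k ≤ j)
      apply div_le_div_of_nonneg_left hc'.le (by positivity)
      have : (0 : ℝ) ≤ k := by positivity
      nlinarith
    have h6 := Finset.sum_le_sum h5
    refine le_trans ?_ h6
    rw [Finset.sum_const, Finset.card_range, nsmul_eq_mul]
    push_cast
    have : (0 : ℝ) < (j : ℝ) + 1 := by positivity
    rw [div_mul_div_comm, mul_one, ← mul_div_assoc, div_le_div_iff₀ (by positivity) (by positivity)]
    nlinarith [mul_pos hc' (mul_pos this this)]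
  have h7 : Summable fun j : ℕ => ‖c‖ ^ 2 / 16 * (1 / ((j : ℝ) + 1)) :=
    Summable.of_nonneg_of_le (fun _ => by positivity) h2 h1
  have h8 : Summable fun j : ℕ => (1 / ((j : ℝ) + 1)) :=
    (summable_mul_left_iff (by positivity)).mp h7
  have h9 := (summable_nat_add_iff (f := fun j : ℕ => 1 / (j : ℝ)) 1).mp (by simpa using h8)
  exact Real.not_summable_one_div_natCast h9

lemma E_zero (b : ℕ → ℕ → ℂ) : E b 0 = 0 := by
  simp [E, PS]

lemma PS_shift {c : ℕ → ℂ} {C : ℝ} (hc : ∀ j, ‖c j‖ ≤ C * (j + 2)) {z : ℂ} (hz : ‖z‖ < 1)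
    (hz0 : z ≠ 0) : HasSum (fun j => c (j + 1) * z ^ (j + 1)) (PS c z / z - c 0) := by
  have h1 := PS_summable hc hz
  have h2 : PS c z = c 0 * z + ∑' j, c (j + 1) * z ^ (j + 2) := by
    unfold PS
    rw [h1.tsum_eq_zero_add]
    simp
  have h3 : Summable fun j => c (j + 1) * z ^ (j + 1) := by
    have h4 := ((summable_nat_add_iff 1).mpr h1).mul_left (1 / z)
    refine h4.congr fun j => ?_
    rw [pow_succ z (j + 1)]
    field_simp
  have h6 : (∑' j, c (j + 1) * z ^ (j + 2)) = z * ∑' j, c (j + 1) * z ^ (j + 1) := by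
    rw [← tsum_mul_left]
    apply tsum_congr
    intro j
    ring
  rw [h6] at h2
  have h7 : PS c z / z - c 0 = ∑' j, c (j + 1) * z ^ (j + 1) := by
    rw [h2]
    field_simp
    ring
  rw [h7]
  exact h3.hasSum

lemma E_D {b : ℕ → ℕ → ℂ} {C C' : ℝ} (hb : ∀ j k, ‖b j k‖ ≤ C * (j + k + 2))
    (hD : ∀ j k, ‖D b j k‖ ≤ C' * (j + k + 2)) (hh : Harm b) {t : ℂ} (ht : t ≠ 0) :
    E (D b) t = E b t / t - b 0 0 := by
  have hb0 : ∀ j, ‖b j 0‖ ≤ C * (j + 2) := fun j => by simpa using hb j 0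
  have hb1 : ∀ k, ‖b 0 k‖ ≤ C * (k + 2) := fun k => by simpa using hb 0 k
  by_cases h : -1 / 2 < t.re
  · rw [E_right hD (D_harm hh) h, E_right hb hh h]
    have h0 := ne1 h
    set z := t / (1 + t) with hz
    have hz0 : z ≠ 0 := div_ne_zero ht h0
    have h1 := (PS_shift hb0 (norm1 h) hz0).sub (PS_summable hb0 (norm1 h)).hasSum
    have h2 : PS (fun j => D b j 0) z = PS (fun j => b j 0) z / z - b 0 0 - PS (fun j => b j 0) z := by
      rw [← hz] at h1
      unfold PS at h1 ⊢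
      rw [← h1.tsum_eq]
      apply tsum_congr
      intro j
      unfold D
      ring
    rw [h2]
    have h3 : z * (1 + t) = t := by
      rw [hz]
      field_simp
    have h4 : PS (fun j => b j 0) z / z = PS (fun j => b j 0) z * (1 + t) / t := by
      rw [div_eq_div_iff hz0 ht]
      linear_combination (-PS (fun j => b j 0) z) * h3
    rw [h4]
    field_simp
    ring
  · have h' : t.re < 1 / 2 := by linarith
    rw [E_left hD (D_harm hh) h', E_left hb hh h']
    have h0 := ne2 h'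
    set z := t / (t - 1) with hz
    have hz0 : z ≠ 0 := div_ne_zero ht h0
    have h1 := (PS_summable hb1 (norm2 h')).hasSum.sub (PS_shift hb1 (norm2 h') hz0)
    have h2 : PS (fun k => D b 0 k) z = PS (fun k => b 0 k) z - (PS (fun k => b 0 k) z / z - b 0 0) := by
      rw [← hz] at h1
      unfold PS at h1 ⊢
      rw [← h1.tsum_eq]
      apply tsum_congr
      intro k
      have := D_eq hh 0 k
      simp only [this]
      ring
    rw [h2]
    have h3 : z * (t - 1) = t := by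
      rw [hz]
      field_simp
    have h4 : PS (fun k => b 0 k) z / z = PS (fun k => b 0 k) z * (t - 1) / t := by
      rw [div_eq_div_iff hz0 ht]
      linear_combination (-PS (fun k => b 0 k) z) * h3
    rw [h4]
    field_simp
    ring

lemma PS_zero (c : ℕ → ℂ) : PS c 0 = 0 := by simp [PS]

lemma PS_inj (j : ℕ) : ∀ (c : ℕ → ℂ) (C : ℝ), (∀ i, ‖c i‖ ≤ C * (i + 2)) →
    (∀ z : ℂ, ‖z‖ < 1 → PS c z = 0) → c j = 0 := by
  have shift_bound : ∀ (c : ℕ → ℂ) (C : ℝ), (∀ i, ‖c i‖ ≤ C * (i + 2)) →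
      ∀ i, ‖c (i + 1)‖ ≤ (2 * C) * (i + 2) := by
    intro c C hc i
    have hC : 0 ≤ C := by
      have := (norm_nonneg _).trans (hc 0)
      norm_num at this
      linarith
    refine (hc (i + 1)).trans ?_
    push_cast
    have : 0 ≤ C * i := by positivity
    nlinarith
  have shift_val : ∀ (c : ℕ → ℂ) (C : ℝ), (∀ i, ‖c i‖ ≤ C * (i + 2)) →
      (∀ z : ℂ, ‖z‖ < 1 → PS c z = 0) → ∀ z : ℂ, ‖z‖ < 1 → z ≠ 0 →
      PS (fun i => c (i + 1)) z = -c 0 := by
    intro c C hc hP z hz hz0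
    have h1 := (PS_shift hc hz hz0).tsum_eq
    rw [hP z hz] at h1
    unfold PS
    rw [h1]
    simp
  have first : ∀ (c : ℕ → ℂ) (C : ℝ), (∀ i, ‖c i‖ ≤ C * (i + 2)) →
      (∀ z : ℂ, ‖z‖ < 1 → PS c z = 0) → c 0 = 0 := by
    intro c C hc hP
    have h1 : ContinuousAt (PS (fun i => c (i + 1))) 0 :=
      (PS_diff (shift_bound c C hc) (by simp)).continuousAt
    have h2 : Tendsto (PS (fun i => c (i + 1))) (𝓝[≠] 0) (𝓝 0) := by
      have := h1.tendsto
      rw [PS_zero] at this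
      exact this.mono_left nhdsWithin_le_nhds
    have h3 : Tendsto (PS (fun i => c (i + 1))) (𝓝[≠] 0) (𝓝 (-c 0)) := by
      refine tendsto_const_nhds.congr' ?_
      have : Metric.ball (0 : ℂ) 1 ∈ 𝓝 (0 : ℂ) := Metric.ball_mem_nhds _ one_pos
      filter_upwards [mem_nhdsWithin_of_mem_nhds this, self_mem_nhdsWithin] with z hz hz0
      exact (shift_val c C hc hP z (by simpa using hz) hz0).symm
    have h4 := tendsto_nhds_unique h2 h3
    exact (neg_eq_zero.mp h4.symm)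
  induction j with
  | zero => exact first
  | succ j ih =>
    intro c C hc hP
    have h0 := first c C hc hP
    have := ih (fun i => c (i + 1)) (2 * C) (shift_bound c C hc) (fun z hz => by
      by_cases hz0 : z = 0
      · rw [hz0, PS_zero]
      · rw [shift_val c C hc hP z hz hz0, h0, neg_zero])
    exact this

/-- If the entire function vanishes identically, so does the array. -/
lemma eq_zero_of_E {b : ℕ → ℕ → ℂ} {C : ℝ} (hb : ∀ j k, ‖b j k‖ ≤ C * (j + k + 2))
    (hh : Harm b) (hE : ∀ t, E b t = 0) : ∀ j k, b j k = 0 := by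
  -- the coefficients `b j 0` vanish
  have hb0 : ∀ j, ‖b j 0‖ ≤ C * (j + 2) := fun j => by simpa using hb j 0
  have hPS : ∀ z : ℂ, ‖z‖ < 1 → PS (fun j => b j 0) z = 0 := by
    intro z hz
    have h1z : 1 - z ≠ 0 := by
      intro h
      rw [sub_eq_zero] at h
      rw [← h] at hz
      simp at hz
    have hre : -1 / 2 < (z / (1 - z)).re := by
      have h2 : z / (1 - z) = 1 / (1 - z) - 1 := by
        field_simp
        ring
      rw [h2, Complex.sub_re, Complex.one_re, one_div, Complex.inv_re]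
      have h3 : 0 < Complex.normSq (1 - z) := Complex.normSq_pos.mpr h1z
      have h4 : Complex.normSq (1 - z) < 2 * (1 - z).re := by
        have h5 : Complex.normSq z < 1 := by
          rw [Complex.normSq_eq_norm_sq]
          nlinarith [norm_nonneg z]
        rw [Complex.normSq_apply] at h5 ⊢
        simp
        nlinarith
      have h6 : 1 / 2 < (1 - z).re / Complex.normSq (1 - z) := by
        rw [div_lt_div_iff₀ (by norm_num) h3]
        linarith
      linarith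
    have h7 := hE (z / (1 - z))
    rw [E_right hb hh hre] at h7
    have h8 : z / (1 - z) / (1 + z / (1 - z)) = z := by
      field_simp
      ring
    rwa [h8] at h7
  have hz0 : ∀ j, b j 0 = 0 := fun j => PS_inj j _ C hb0 hPS
  intro j k
  induction k generalizing j with
  | zero => exact hz0 j
  | succ k ih =>
    have := hh j k
    rw [ih, ih] at this
    linear_combination -this

/-- The main vanishing theorem. -/
theorem harm_zero : ∀ (s : ℕ) (b : ℕ → ℕ → ℂ), Harm b → Sq b →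
    (∃ K : ℝ, ∀ t, ‖E b t‖ ≤ K * (1 + ‖t‖) ^ s) → ∀ j k, b j k = 0 := by
  intro s
  induction s with
  | zero =>
    intro b hh hs ⟨K, hK⟩
    obtain ⟨C, hC⟩ := hs.bound
    apply eq_zero_of_E hC hh
    intro t
    have h1 : Bornology.IsBounded (Set.range (E b)) := by
      rw [isBounded_iff_forall_norm_le]
      refine ⟨K, ?_⟩
      rintro _ ⟨t, rfl⟩
      simpa using hK t
    have := (E_diff hC hh).apply_eq_apply_of_bounded h1 t 0
    rw [this, E_zero]
  | succ s ih =>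
    intro b hh hs ⟨K, hK⟩
    obtain ⟨C, hC⟩ := hs.bound
    obtain ⟨C', hC'⟩ := (D_sq hs).bound
    have hK0 : 0 ≤ K := by
      have := (norm_nonneg _).trans (hK 0)
      simpa using this
    have hDz : ∀ j k, D b j k = 0 := by
      apply ih (D b) (D_harm hh) (D_sq hs)
      -- bound on the unit ball by compactness
      obtain ⟨M, hM⟩ := (isCompact_closedBall (0 : ℂ) 1).exists_bound_of_continuousOn
        (E_diff hC' (D_harm hh)).continuous.continuousOn
      refine ⟨max M 0 + 2 * K + ‖b 0 0‖, fun t => ?_⟩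
      have h1t : 1 ≤ (1 + ‖t‖) ^ s := one_le_pow₀ (by linarith [norm_nonneg t])
      by_cases ht : ‖t‖ ≤ 1
      · have h1 := hM t (by simpa using ht)
        calc ‖E (D b) t‖ ≤ max M 0 := h1.trans (le_max_left _ _)
          _ ≤ (max M 0 + 2 * K + ‖b 0 0‖) * 1 := by
              have := norm_nonneg (b 0 0)
              linarith
          _ ≤ _ := by
              have : 0 ≤ max M 0 + 2 * K + ‖b 0 0‖ := by positivity
              gcongr
      · push Not at ht
        have ht0 : t ≠ 0 := by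
          rintro rfl
          simp at ht
          linarith
        rw [E_D hC hC' hh ht0]
        have h2 : ‖E b t / t - b 0 0‖ ≤ ‖E b t‖ / ‖t‖ + ‖b 0 0‖ := by
          refine (norm_sub_le _ _).trans ?_
          rw [norm_div]
        have h3 : ‖E b t‖ / ‖t‖ ≤ 2 * K * (1 + ‖t‖) ^ s := by
          rw [div_le_iff₀ (by linarith)]
          refine (hK t).trans ?_
          rw [pow_succ]
          have : 0 ≤ K * (1 + ‖t‖) ^ s := by positivity
          nlinarith
        calc _ ≤ 2 * K * (1 + ‖t‖) ^ s + ‖b 0 0‖ := by linarith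
          _ ≤ 2 * K * (1 + ‖t‖) ^ s + ‖b 0 0‖ * (1 + ‖t‖) ^ s := by
              have := mul_le_mul_of_nonneg_left h1t (norm_nonneg (b 0 0))
              linarith
          _ ≤ _ := by
              have : 0 ≤ max M 0 * (1 + ‖t‖) ^ s := by positivity
              linarith
    have hconst : ∀ j k, b j k = b 0 0 := by
      have h1 : ∀ j k, b (j + 1) k = b j k := fun j k => by
        have := hDz j k
        unfold D at this
        exact sub_eq_zero.mp this
      have h2 : ∀ j k, b j (k + 1) = b j k := fun j k => by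
        have := hDz j k
        rw [D_eq hh] at this
        exact (sub_eq_zero.mp this).symm
      intro j k
      induction k with
      | zero =>
        induction j with
        | zero => rfl
        | succ j ih => rw [h1, ih]
      | succ k ih => rw [h2, ih]
    have h0 : b 0 0 = 0 := by
      apply const_zero
      unfold Sq at hs ⊢
      refine hs.congr fun J => ?_
      rw [hconst]
    intro j k
    rw [hconst, h0]

theorem main {b : ℕ → ℕ → ℂ} (hh : Harm b) (hs : Sq b) : ∀ j k, b j k = 0 := by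
  obtain ⟨C, hC⟩ := hs.bound
  exact harm_zero 4 b hh hs ⟨8 * C, E_growth hC hh⟩

end Q71.BidiskCyclic
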