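import Mathlib
import Pool.Agent.Q82.QC.Stm

/-! Project QC (helper82), job QC-CONC (helper71). -/

set_option autoImplicit false

open MeasureTheory Filter Topology Real InnerProductSpace Laplacian

namespace Pool.Agent.Q82.QC

lemma conc_bd_nonneg (e : ℝ) (z : E) : 0 ≤ bd e z := by
  unfold bd
  positivity

lemma conc_tail (h2 : S_TAIL) (r : ℝ) (hr : 0 < r) (ε : ℕ → ℝ) (hε : ∀ k, 0 < ε k)
    (hε0 : Tendsto ε atTop (𝓝 0)) :
    Tendsto (fun k => ∫ z in (Metric.ball (0 : E) r)ᶜ, bd (ε k) z) atTop (𝓝 0) := by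
  rw [Metric.tendsto_atTop]
  intro η hη
  obtain ⟨e0, he0, h⟩ := h2 r hr (η / 2) (by positivity)
  obtain ⟨N, hN⟩ := eventually_atTop.1 (hε0.eventually_lt_const he0)
  refine ⟨N, fun k hk => ?_⟩
  have h3 := h (ε k) (hε k) (hN k hk)
  have h4 : 0 ≤ ∫ z in (Metric.ball (0 : E) r)ᶜ, bd (ε k) z :=
    integral_nonneg fun z => conc_bd_nonneg _ z
  rw [Real.dist_eq, sub_zero, abs_of_nonneg h4]
  linarith

lemma conc_shift (F : E → ℝ) (a : E) (S : Set E) (hS : MeasurableSet S) :
    ∫ y in (fun y => y - a) ⁻¹' S, F (y - a) = ∫ z in S, F z := by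
  have hm : MeasurableSet ((fun y : E => y - a) ⁻¹' S) := (measurable_id.sub_const a) hS
  rw [← integral_indicator hm, ← integral_indicator hS,
    ← integral_sub_right_eq_self (fun z => S.indicator F z) a]
  rfl

lemma conc_ball (a : E) (r : ℝ) : Metric.ball a r = (fun y => y - a) ⁻¹' (Metric.ball 0 r) := by
  ext y
  simp [dist_eq_norm]

/-- the mass of the bubble at `a` in a small ball around `x` -/
lemma conc_term (h1 : S_MASS) (h2 : S_TAIL) (x a : E) (r : ℝ) (hr : 0 < r)
    (hxa : a ≠ x → 2 * r ≤ dist x a) (ε : ℕ → ℝ) (hε : ∀ k, 0 < ε k)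
    (hε0 : Tendsto ε atTop (𝓝 0)) :
    Tendsto (fun k => ∫ y in Metric.ball x r, bd (ε k) (y - a)) atTop
      (𝓝 (if a = x then 16 * π ^ 2 else 0)) := by
  have ht := conc_tail h2 r hr ε hε hε0
  split_ifs with hax
  · subst hax
    have h3 : ∀ k, ∫ y in Metric.ball a r, bd (ε k) (y - a) =
        16 * π ^ 2 - ∫ z in (Metric.ball (0 : E) r)ᶜ, bd (ε k) z := by
      intro k
      rw [conc_ball, conc_shift _ a _ measurableSet_ball]
      have h4 := integral_add_compl (μ := volume) (measurableSet_ball (x := (0 : E)) (ε := r))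
        (h1 (ε k) (hε k)).1
      rw [(h1 (ε k) (hε k)).2] at h4
      linarith
    simp_rw [h3]
    simpa using (tendsto_const_nhds (x := 16 * π ^ 2)).sub ht
  · refine squeeze_zero (fun k => integral_nonneg fun y => conc_bd_nonneg _ _) ?_ ht
    intro k
    rw [← conc_shift (bd (ε k)) a _ measurableSet_ball.compl, Set.preimage_compl, ← conc_ball]
    apply setIntegral_mono_set
    · exact ((h1 (ε k) (hε k)).1.comp_sub_right a).integrableOn
    · exact Eventually.of_forall fun y => conc_bd_nonneg _ _
    · apply HasSubset.Subset.eventuallyLE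
      intro y hy
      rw [Metric.mem_ball] at hy
      rw [Set.mem_compl_iff, Metric.mem_ball, not_lt]
      have h5 := dist_triangle x y a
      rw [dist_comm x y] at h5
      have h6 := hxa hax
      linarith

lemma conc_ep_pos {A : Finset E} (hA : GoodA A) {a : E} (ha : a ∈ A) (β : ℝ) : 0 < ep A β a := by
  unfold ep HH
  have h1 : 0 < ∏ b ∈ A.erase a, (‖a - pp‖ / ‖a - b‖) ^ 2 := by
    apply Finset.prod_pos
    intro b hb
    have hb1 : a ≠ b := (Finset.ne_of_mem_erase hb).symm
    have h2 : 0 < ‖a - b‖ := norm_pos_iff.2 (sub_ne_zero.2 hb1)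
    have h3 : 0 < ‖a - pp‖ := by
      rw [norm_pos_iff, sub_ne_zero]
      rintro rfl
      have := hA pp ha
      unfold pp at this
      rw [EuclideanSpace.single_apply] at this
      norm_num at this
    positivity
  positivity

lemma conc_ep_tendsto (A : Finset E) (a : E) (b : ℕ → ℝ) (hb : Tendsto b atTop atTop) :
    Tendsto (fun k => ep A (b k) a) atTop (𝓝 0) := by
  unfold ep
  have h1 : Tendsto (fun k => Real.exp (-(4 / 3) * b k)) atTop (𝓝 0) := by
    apply Real.tendsto_exp_atBot.comp
    exact hb.const_mul_atTop_of_neg (by norm_num)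
  have h2 := (h1.mul_const (HH A a)).div_const 2
  simpa using h2

lemma conc_open : IsOpen Om := by
  have h : Continuous fun x : E => x 0 := by fun_prop
  exact (isOpen_lt continuous_const h).inter (isOpen_lt h continuous_const)

theorem conc1 (h1 : S_MASS) (h2 : S_TAIL) (h3 : S_MOLI) : S_CONC := by
  classical
  intro A hA b e h f hb he hh hh0 hf
  -- the limit for small balls
  have key : ∀ x ∈ Om, ∀ᶠ r : ℝ in 𝓝[>] 0,
      liminf (fun k => ∫ y in Metric.ball x r, f k y) atTop = if x ∈ A then 16 * π ^ 2 else 0 := by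
    intro x hx
    obtain ⟨r1, hr1, hball⟩ := Metric.isOpen_iff.1 conc_open x hx
    have hcl : IsClosed ((A.erase x : Finset E) : Set E) := (Finset.finite_toSet _).isClosed
    have hxc : x ∈ (((A.erase x : Finset E) : Set E))ᶜ := by simp
    obtain ⟨r2, hr2, hball2⟩ := Metric.isOpen_iff.1 hcl.isOpen_compl x hxc
    have hdist : ∀ a ∈ A, a ≠ x → r2 ≤ dist x a := by
      intro a ha hax
      by_contra hcon
      push Not at hcon
      have h4 : a ∈ Metric.ball x r2 := by rwa [Metric.mem_ball, dist_comm]
      have h5 := hball2 h4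
      apply h5
      simp [ha, hax]
    filter_upwards [Ioo_mem_nhdsGT (show (0 : ℝ) < min r1 (r2 / 2) by positivity)] with r hr
    have hr0 : 0 < r := hr.1
    have hrr1 : r < r1 := lt_of_lt_of_le hr.2 (min_le_left _ _)
    have hrr2 : r < r2 / 2 := lt_of_lt_of_le hr.2 (min_le_right _ _)
    have hsub : Metric.ball x r ⊆ Om := (Metric.ball_subset_ball hrr1.le).trans hball
    apply Tendsto.liminf_eq
    have hint : ∀ k, ∀ a ∈ A, Integrable (fun y => bd (ep A (b k) a) (y - a))
        (volume.restrict (Metric.ball x r)) := by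
      intro k a ha
      exact ((h1 _ (conc_ep_pos hA ha (b k))).1.comp_sub_right a).integrableOn
    have heq : ∀ k, ∫ y in Metric.ball x r, f k y =
        (∑ a ∈ A, ∫ y in Metric.ball x r, bd (ep A (b k) a) (y - a)) +
          ∫ y in Metric.ball x r, mol (e k) (h k) y := by
      intro k
      rw [setIntegral_congr_fun measurableSet_ball (fun y hy => hf k y (hsub hy))]
      have h6 : Integrable (fun y => B A (b k) y) (volume.restrict (Metric.ball x r)) := by
        unfold B
        exact integrable_finset_sum _ fun a ha => hint k a ha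
      rw [integral_add h6 (h3 (e k) (h k) (he k) (hh k).1 (hh k).2).2.1.integrableOn]
      congr 1
      unfold B
      exact integral_finset_sum _ fun a ha => hint k a ha
    simp_rw [heq]
    have hmol : Tendsto (fun k => ∫ y in Metric.ball x r, mol (e k) (h k) y) atTop (𝓝 0) := by
      apply squeeze_zero_norm _ hh0
      intro k
      obtain ⟨-, hi, hle⟩ := h3 (e k) (h k) (he k) (hh k).1 (hh k).2
      calc ‖∫ y in Metric.ball x r, mol (e k) (h k) y‖
          ≤ ∫ y in Metric.ball x r, ‖mol (e k) (h k) y‖ := norm_integral_le_integral_norm _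
        _ ≤ ∫ y, ‖mol (e k) (h k) y‖ :=
            setIntegral_le_integral hi.norm (Eventually.of_forall fun y => norm_nonneg _)
        _ ≤ ∫ y, |h k y| := hle
    have hsum : Tendsto (fun k => ∑ a ∈ A, ∫ y in Metric.ball x r, bd (ep A (b k) a) (y - a))
        atTop (𝓝 (∑ a ∈ A, if a = x then 16 * π ^ 2 else 0)) := by
      apply tendsto_finset_sum
      intro a ha
      apply conc_term h1 h2 x a r hr0 _ _ (fun k => conc_ep_pos hA ha (b k))
        (conc_ep_tendsto A a b hb)
      intro hax
      have := hdist a ha hax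
      linarith
    have h7 := hsum.add hmol
    rw [add_zero, Finset.sum_ite_eq'] at h7
    exact h7
  have hpi : (0 : ℝ) < π ^ 2 := by positivity
  ext x
  constructor
  · rintro ⟨hx, L, hL, hL8⟩
    have h4 := hL.congr' (key x hx)
    have h5 := tendsto_nhds_unique h4 tendsto_const_nhds
    by_contra hxA
    have hxA' : x ∉ A := hxA
    rw [if_neg hxA'] at h5
    linarith
  · intro hxA
    have hxA' : x ∈ A := hxA
    have hx : x ∈ Om := by
      have := hA x hxA'
      unfold Om
      simp only [Set.mem_setOf_eq, this]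
      norm_num
    refine ⟨hx, 16 * π ^ 2, ?_, by linarith⟩
    have h4 := key x hx
    rw [if_pos hxA'] at h4
    exact tendsto_const_nhds.congr' (h4.mono fun r hr => hr.symm)

end Pool.Agent.Q82.QC
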