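import Mathlib

open MvPolynomial ComplexConjugate

namespace Q71.Shanks

/-- coefficients of the counterexample polynomial -/
def cf (j k : ℕ) : ℚ := if j + k ≤ 11 then (j + k + 1) * (3 / 8) ^ (j + k) * (j + k).choose j else 0

def cX (j k : ℕ) : ℚ := if j = 0 then 0 else cf (j - 1) k
def cY (j k : ℕ) : ℚ := if k = 0 then 0 else cf j (k - 1)

def ipQ (u v : ℕ → ℕ → ℚ) : ℚ := ∑ j ∈ Finset.range 13, ∑ k ∈ Finset.range 13, u j k * v j k

def vA : ℚ := ipQ cf cf
def vB : ℚ := ipQ cf cX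
def vC : ℚ := ipQ cX cY

theorem lt1 : vA + vC < 2 * vB := by
  decide +kernel

theorem lt2 : 2 * vB ^ 2 < vA * (vA + vC) := by
  decide +kernel

theorem pos1 : 0 < vB := by
  decide +kernel

theorem pos2 : 0 < vA + vC := by
  decide +kernel

def va : ℚ := (vA + vC) / (vA * (vA + vC) - 2 * vB ^ 2)
def vb : ℚ := vB / (vA * (vA + vC) - 2 * vB ^ 2)

/-- coefficients of `q f - 1` -/
def ce (j k : ℕ) : ℚ := va * cf j k - vb * cX j k - vb * cY j k - (if j = 0 ∧ k = 0 then 1 else 0)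

theorem orth0 : ipQ ce cf = 0 := by
  decide +kernel
theorem orth1 : ipQ ce cX = 0 := by
  decide +kernel
theorem orth2 : ipQ ce cY = 0 := by
  decide +kernel

theorem cf_zero {j k : ℕ} (h : 12 ≤ j ∨ 12 ≤ k) : cf j k = 0 := by
  unfold cf
  rw [if_neg]
  omega

theorem cX_zero {j k : ℕ} (h : 13 ≤ j ∨ 13 ≤ k) : cX j k = 0 := by
  unfold cX
  split_ifs
  · rfl
  · exact cf_zero (by omega)

theorem cY_zero {j k : ℕ} (h : 13 ≤ j ∨ 13 ≤ k) : cY j k = 0 := by
  unfold cY
  split_ifs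
  · rfl
  · exact cf_zero (by omega)

theorem ce_zero {j k : ℕ} (h : 13 ≤ j ∨ 13 ≤ k) : ce j k = 0 := by
  unfold ce
  rw [cf_zero (by omega), cX_zero h, cY_zero h, if_neg (by omega)]
  simp

/-- The counterexample. -/
noncomputable def F : MvPolynomial (Fin 2) ℂ :=
  ∑ n ∈ Finset.range 12, C ((n + 1 : ℂ) * (3 / 8) ^ n) * (X 0 + X 1) ^ n

theorem coeff_add_pow (n : ℕ) (m : Fin 2 →₀ ℕ) :
    coeff m ((X 0 + X 1 : MvPolynomial (Fin 2) ℂ) ^ n) =
      if m 0 + m 1 = n then (n.choose (m 0) : ℂ) else 0 := by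
  rw [add_pow]
  simp only [coeff_sum]
  have key : ∀ x ∈ Finset.range (n + 1),
      coeff m ((X 0 : MvPolynomial (Fin 2) ℂ) ^ x * X 1 ^ (n - x) * ((n.choose x : ℕ) : MvPolynomial (Fin 2) ℂ))
        = if x = m 0 ∧ n - x = m 1 then (n.choose x : ℂ) else 0 := by
    intro x hx
    have h1 : ((X 0 : MvPolynomial (Fin 2) ℂ) ^ x * X 1 ^ (n - x) * ((n.choose x : ℕ) : MvPolynomial (Fin 2) ℂ))
        = monomial (Finsupp.single 0 x + Finsupp.single 1 (n - x)) (n.choose x : ℂ) := by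
      rw [X_pow_eq_monomial, X_pow_eq_monomial, monomial_mul, ← map_natCast (C : ℂ →+* MvPolynomial (Fin 2) ℂ),
        mul_comm, C_mul_monomial]
      simp
    rw [h1, coeff_monomial]
    have h2 : (Finsupp.single 0 x + Finsupp.single 1 (n - x) = m) ↔ (x = m 0 ∧ n - x = m 1) := by
      constructor
      · intro h
        subst h
        simp
      · rintro ⟨h3, h4⟩
        ext i
        fin_cases i
        · simp [h3]
        · simpa using h4
    simp only [h2]
  rw [Finset.sum_congr rfl key]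
  by_cases h : m 0 + m 1 = n
  · rw [if_pos h, Finset.sum_eq_single (m 0)]
    · rw [if_pos]
      omega
    · intro b _ hb
      rw [if_neg]
      tauto
    · intro h'
      exfalso
      apply h'
      simp
      omega
  · rw [if_neg h]
    apply Finset.sum_eq_zero
    intro x hx
    rw [if_neg]
    have : x < n + 1 := Finset.mem_range.mp hx
    omega

theorem coeff_F (m : Fin 2 →₀ ℕ) : coeff m F = ((cf (m 0) (m 1) : ℚ) : ℂ) := by
  unfold F cf
  simp only [coeff_sum, coeff_C_mul, coeff_add_pow]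
  split_ifs with h
  · rw [Finset.sum_eq_single (m 0 + m 1)]
    · simp
    · intro b _ hb
      rw [if_neg (Ne.symm hb)]
      simp
    · intro h'
      exfalso
      apply h'
      simp
      omega
  · rw [Finset.sum_eq_zero]
    · simp
    intro x hx
    have : x < 12 := Finset.mem_range.mp hx
    rw [if_neg (by omega)]
    simp

theorem coeff_XF (m : Fin 2 →₀ ℕ) : coeff m (X 0 * F) = ((cX (m 0) (m 1) : ℚ) : ℂ) := by
  rw [coeff_X_mul']
  unfold cX
  by_cases h : m 0 = 0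
  · rw [if_neg (by simp [h]), if_pos h]
    simp
  · rw [if_pos (by simp [h]), if_neg h, coeff_F]
    simp

theorem coeff_YF (m : Fin 2 →₀ ℕ) : coeff m (X 1 * F) = ((cY (m 0) (m 1) : ℚ) : ℂ) := by
  rw [coeff_X_mul']
  unfold cY
  by_cases h : m 1 = 0
  · rw [if_neg (by simp [h]), if_pos h]
    simp
  · rw [if_pos (by simp [h]), if_neg h, coeff_F]
    simp

/-- the optimal approximant -/
noncomputable def Q : MvPolynomial (Fin 2) ℂ :=
  C ((va : ℚ) : ℂ) - C ((vb : ℚ) : ℂ) * X 0 - C ((vb : ℚ) : ℂ) * X 1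

theorem coeff_E (m : Fin 2 →₀ ℕ) : coeff m (Q * F - 1) = ((ce (m 0) (m 1) : ℚ) : ℂ) := by
  have h1 : Q * F - 1 = C ((va : ℚ) : ℂ) * F - C ((vb : ℚ) : ℂ) * (X 0 * F)
      - C ((vb : ℚ) : ℂ) * (X 1 * F) - 1 := by
    unfold Q
    ring
  rw [h1]
  simp only [coeff_sub, coeff_C_mul, coeff_F, coeff_XF, coeff_YF]
  have h2 : coeff m (1 : MvPolynomial (Fin 2) ℂ) = if m 0 = 0 ∧ m 1 = 0 then 1 else 0 := by
    rw [coeff_one]
    have : (0 = m) ↔ (m 0 = 0 ∧ m 1 = 0) := by
      constructor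
      · rintro rfl
        simp
      · rintro ⟨h3, h4⟩
        ext i
        fin_cases i <;> simp [h3, h4]
    simp only [this]
  rw [h2]
  unfold ce
  push_cast
  split_ifs <;> simp

theorem F_ne_zero (z : Fin 2 → ℂ) (hz : ∀ i, ‖z i‖ ≤ 1) : eval z F ≠ 0 := by
  intro h
  set x : ℂ := 3 / 8 * (z 0 + z 1) with hx
  have h1 : eval z F = ∑ n ∈ Finset.range 12, ((n : ℂ) + 1) * x ^ n := by
    unfold F
    simp only [map_sum, map_mul, map_pow, map_add, eval_X, eval_C]
    apply Finset.sum_congr rfl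
    intro n _
    rw [hx, mul_pow]
    ring
  have h2 : (1 - x) ^ 2 * eval z F = 1 - 13 * x ^ 12 + 12 * x ^ 13 := by
    rw [h1]
    simp only [Finset.sum_range_succ, Finset.sum_range_zero]
    push_cast
    ring
  rw [h, mul_zero] at h2
  have hxn : ‖x‖ ≤ 3 / 4 := by
    rw [hx, norm_mul]
    have h3 : ‖(3 / 8 : ℂ)‖ = 3 / 8 := by norm_num
    rw [h3]
    have := norm_add_le (z 0) (z 1)
    have h0 := hz 0
    have h1 := hz 1
    linarith
  have h4 : (1 : ℂ) = 13 * x ^ 12 - 12 * x ^ 13 := by linear_combination -h2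
  have h5 : ‖(1 : ℂ)‖ ≤ 13 * (3 / 4 : ℝ) ^ 12 + 12 * (3 / 4 : ℝ) ^ 13 := by
    rw [h4]
    refine (norm_sub_le _ _).trans ?_
    rw [norm_mul, norm_mul, norm_pow, norm_pow]
    have h6 : ‖(13 : ℂ)‖ = 13 := by norm_num
    have h7 : ‖(12 : ℂ)‖ = 12 := by norm_num
    rw [h6, h7]
    gcongr
  rw [norm_one] at h5
  norm_num at h5

end Q71.Shanks
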