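import Mathlib
import Pool.Agent.Q2.TN.Stm

/-! Project TN (helper2), job F8 (helper71). -/

set_option autoImplicit false

namespace Q71.TN_F8

open Q2.TN Subgroup

/-- `B ⟨a⟩` has at most `n |B|` elements if `a ^ n ∈ B` -/
lemma card_sup {Γ : Type} [Group Γ] [Finite Γ] (B : Subgroup Γ) (a : Γ) (n : ℕ) (hn : 0 < n)
    (hc : ∀ b ∈ B, b * a = a * b) (ha : a ^ n ∈ B) :
    Nat.card ↥(B ⊔ zpowers a) ≤ Nat.card B * n := by
  have hcz : ∀ b ∈ B, ∀ j : ℤ, b * a ^ j = a ^ j * b := by
    intro b hb j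
    have h : Commute b a := hc b hb
    exact (h.zpow_right j).eq
  let T : Subgroup Γ :=
    { carrier := {x | ∃ b ∈ B, ∃ j : ℤ, x = b * a ^ j}
      one_mem' := ⟨1, B.one_mem, 0, by simp⟩
      mul_mem' := by
        rintro x y ⟨b, hb, j, rfl⟩ ⟨b', hb', j', rfl⟩
        refine ⟨b * b', B.mul_mem hb hb', j + j', ?_⟩
        rw [zpow_add, mul_assoc b, ← mul_assoc (a ^ j), ← hcz b' hb' j]
        group
      inv_mem' := by
        rintro x ⟨b, hb, j, rfl⟩
        refine ⟨b⁻¹, B.inv_mem hb, -j, ?_⟩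
        rw [mul_inv_rev, zpow_neg]
        have := hcz b⁻¹ (B.inv_mem hb) (-j)
        rw [zpow_neg] at this
        exact this.symm }
  have hT : B ⊔ zpowers a ≤ T := by
    refine sup_le ?_ ?_
    · intro b hb
      exact ⟨b, hb, 0, by simp⟩
    · rw [zpowers_le]
      exact ⟨1, B.one_mem, 1, by simp⟩
  have hsub : ∀ x ∈ B ⊔ zpowers a, ∃ b ∈ B, ∃ j : Fin n, x = b * a ^ (j : ℕ) := by
    intro x hx
    obtain ⟨b, hb, j, rfl⟩ := hT hx
    have h0 : (0 : ℤ) ≤ j % n := Int.emod_nonneg _ (by exact_mod_cast hn.ne')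
    have h1 : j % n < n := Int.emod_lt_of_pos _ (by exact_mod_cast hn)
    refine ⟨b * (a ^ n) ^ (j / n), B.mul_mem hb (B.zpow_mem ha _), ⟨(j % n).toNat, by omega⟩, ?_⟩
    simp only
    rw [← zpow_natCast a ((j % (n : ℤ)).toNat), Int.toNat_of_nonneg h0, ← zpow_natCast a n,
      ← zpow_mul, mul_assoc, ← zpow_add]
    congr 2
    exact (Int.mul_ediv_add_emod j n).symm
  let F : B × Fin n → ↥(B ⊔ zpowers a) := fun q =>
    ⟨(q.1 : Γ) * a ^ (q.2 : ℕ), (B ⊔ zpowers a).mul_mem (le_sup_left (a := B) q.1.2)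
      ((B ⊔ zpowers a).pow_mem (le_sup_right (a := B) (mem_zpowers a)) _)⟩
  have hF : Function.Surjective F := by
    rintro ⟨x, hx⟩
    obtain ⟨b, hb, j, rfl⟩ := hsub x hx
    exact ⟨(⟨b, hb⟩, j), rfl⟩
  have := Nat.card_le_card_of_surjective F hF
  simpa [Nat.card_prod] using this

/-- the fixed points of `B` -/
def fix {Γ V : Type} [Group Γ] [CommGroup V] [MulDistribMulAction Γ V] (B : Subgroup Γ) :
    Subgroup V where
  carrier := {v | ∀ b ∈ B, b • v = v}
  one_mem' := fun b _ => smul_one b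
  mul_mem' := by
    intro v w hv hw b hb
    rw [smul_mul', hv b hb, hw b hb]
  inv_mem' := by
    intro v hv b hb
    rw [smul_inv', hv b hb]

lemma mem_fix {Γ V : Type} [Group Γ] [CommGroup V] [MulDistribMulAction Γ V] (B : Subgroup Γ)
    (v : V) : v ∈ fix B ↔ ∀ b ∈ B, b • v = v := Iff.rfl

/-- **F8** -/
theorem f8 (h3 : S_F3) (h4 : S_F4) (h7 : S_F7) : S_F8 := by
  intro p hp hp2 Γ V _ _ _ A Q hΓ hV hexp hAab hAp hQab hQc hnorm hfA hfQ
  have : Fact p.Prime := ⟨hp⟩
  -- induction on the order of `A`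
  have key : ∀ N : ℕ, ∀ A : Subgroup Γ, Nat.card A ≤ N → IsAb A → IsPGroup p A →
      (∀ g ∈ A, ∀ x ∈ Q, g * x * g⁻¹ ∈ Q) → (∀ g ∈ A, (∀ x ∈ Q, g * x = x * g) → g = 1) →
      Nat.card A ^ 2 * Nat.card (fix (V := V) A) ≤ Nat.card V := by
    intro N
    induction N with
    | zero =>
      intro A hA
      exact absurd hA (by simpa using Nat.card_pos.ne')
    | succ N ih =>
      intro A hAN hAab hAp hnorm hfA
      by_cases hA1 : A = ⊥
      · subst hA1
        have h1 : Nat.card (fix (V := V) (⊥ : Subgroup Γ)) ≤ Nat.card V :=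
          card_le_card_group _
        simpa using h1
      -- `A` does not centralize `Q`
      obtain ⟨g, hgA, hg1⟩ : ∃ g : Γ, g ∈ A ∧ g ≠ 1 := by
        by_contra hcon
        push Not at hcon
        exact hA1 ((eq_bot_iff_forall A).2 hcon)
      have hnc : ∃ g ∈ A, ∃ x ∈ Q, g * x ≠ x * g := by
        by_contra hcon
        push Not at hcon
        exact hg1 (hfA g hgA (hcon g hgA))
      obtain ⟨B, hBA, ⟨a, haA, hAB⟩, hlast⟩ :=
        h7 p hp Γ A Q hAab hAp hQab hQc hnorm hnc
      have hcomm : ∀ b ∈ B, ∀ c ∈ A, b * c = c * b := fun b hb c hc => hAab b (hBA.le hb) c hc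
      have haB : a ∉ B := by
        intro h
        have : A ≤ B := by
          rw [hAB]
          exact sup_le le_rfl (by rwa [zpowers_le])
        exact absurd hBA (not_lt_of_ge this)
      obtain ⟨r, hr⟩ : ∃ r, a ^ p ^ r = 1 := by
        obtain ⟨r, hr⟩ := hAp ⟨a, haA⟩
        refine ⟨r, ?_⟩
        have := congrArg Subtype.val hr
        simpa using this
      have hex : ∃ j, a ^ p ^ j ∈ B := ⟨r, by rw [hr]; exact B.one_mem⟩
      classical
      obtain ⟨k, hk⟩ : ∃ k, Nat.find hex = k + 1 := by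
        apply Nat.exists_eq_succ_of_ne_zero
        intro h0
        have := Nat.find_spec hex
        rw [h0] at this
        exact haB (by simpa using this)
      have hk1 : a ^ p ^ (k + 1) ∈ B := hk ▸ Nat.find_spec hex
      have hk2 : a ^ p ^ k ∉ B := Nat.find_min hex (by omega)
      -- the fixed points of `B`
      set V₁ : Subgroup V := fix B with hV₁
      set Q₁ : Subgroup Γ := Q ⊓ centralizer (B : Set Γ) with hQ₁
      have hQ₁mem : ∀ x, x ∈ Q₁ ↔ x ∈ Q ∧ ∀ b ∈ B, b * x = x * b := by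
        intro x
        rw [hQ₁, mem_inf, mem_centralizer_iff]
        exact Iff.rfl
      have hcard₁ : (Nat.card Q₁).Coprime p :=
        Nat.Coprime.coprime_dvd_left (card_dvd_of_le inf_le_left) hQc
      have hconj : ∀ c ∈ A, ∀ x ∈ Q₁, c * x * c⁻¹ ∈ Q₁ := by
        intro c hc x hx
        rw [hQ₁mem] at hx ⊢
        refine ⟨hnorm c hc x hx.1, ?_⟩
        intro b hb
        have h1 : b * c = c * b := hcomm b hb c hc
        have h2 : b * c⁻¹ = c⁻¹ * b := hcomm b hb c⁻¹ (A.inv_mem hc)
        calc b * (c * x * c⁻¹) = (b * c) * x * c⁻¹ := by group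
          _ = c * (b * x) * c⁻¹ := by rw [h1]; group
          _ = c * x * (b * c⁻¹) := by rw [hx.2 b hb]; group
          _ = c * x * c⁻¹ * b := by rw [h2]; group
      have hstabA : ∀ c ∈ A, ∀ v ∈ V₁, c • v ∈ V₁ := by
        intro c hc v hv b hb
        rw [smul_smul, hcomm b hb c hc, ← smul_smul, hv b hb]
      have hF3 := h3 p hp hp2 Γ V Q₁ V₁ a k r hΓ hV (fun v _ => hexp v)
        (fun x hx y hy => hQab x ((hQ₁mem x).1 hx).1 y ((hQ₁mem y).1 hy).1) hcard₁
        (fun x hx => ⟨hconj a haA x hx, by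
          have := hconj a⁻¹ (A.inv_mem haA) x hx
          rwa [inv_inv] at this⟩)
        (by
          intro x hx v hv b hb
          rw [smul_smul, ((hQ₁mem x).1 hx).2 b hb, ← smul_smul, hv b hb])
        (fun v hv => ⟨hstabA a haA v hv, hstabA a⁻¹ (A.inv_mem haA) v hv⟩)
        (by
          intro x hx hxv
          have hxQ := (hQ₁mem x).1 hx
          apply hfQ x hxQ.1
          refine h4 p hp Γ V B x (Nat.card Q) hΓ hV hexp (hAp.to_le hBA.le) hQc ?_ hxQ.2 ?_
          · have h := pow_card_eq_one' (G := Q) (x := ⟨x, hxQ.1⟩)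
            exact congrArg Subtype.val h
          · intro v hv
            exact hxv v hv)
        hr
        (by
          by_contra hcon
          push Not at hcon
          apply hk2
          apply hlast _ (A.pow_mem haA _)
          intro x hxQ hxB
          exact hcon x ((hQ₁mem x).2 ⟨hxQ, hxB⟩))
      -- the fixed points of `A`
      have hfixA : Nat.card {v : V // v ∈ V₁ ∧ a • v = v} = Nat.card (fix (V := V) A) := by
        apply Nat.card_congr
        refine Equiv.subtypeEquivRight ?_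
        intro v
        constructor
        · rintro ⟨h1, h2⟩
          have h5 : A ≤ MulAction.stabilizer Γ v := by
            rw [hAB]
            refine sup_le (fun b hb => h1 b hb) ?_
            rw [zpowers_le]
            exact h2
          intro g hg
          exact h5 hg
        · intro h
          exact ⟨fun b hb => h b (hBA.le hb), h a haA⟩
      have hIH := ih B (by
          have h5 : Nat.card B < Nat.card A := by
            refine lt_of_le_of_ne (Nat.le_of_dvd Nat.card_pos (card_dvd_of_le hBA.le)) ?_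
            intro h
            exact hBA.ne (eq_of_le_of_card_ge hBA.le h.ge)
          omega)
        (fun x hx y hy => hAab x (hBA.le hx) y (hBA.le hy)) (hAp.to_le hBA.le)
        (fun g hg => hnorm g (hBA.le hg)) (fun g hg => hfA g (hBA.le hg))
      have hcA : Nat.card A ≤ Nat.card B * p ^ (k + 1) := by
        have h5 := card_sup B a (p ^ (k + 1)) (pow_pos hp.pos _)
          (fun b hb => hcomm b hb a haA) hk1
        rwa [← hAB] at h5
      rw [hfixA] at hF3
      calc Nat.card A ^ 2 * Nat.card (fix (V := V) A)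
          ≤ (Nat.card B * p ^ (k + 1)) ^ 2 * Nat.card (fix (V := V) A) := by gcongr
        _ = Nat.card B ^ 2 * (p ^ (2 * (k + 1)) * Nat.card (fix (V := V) A)) := by ring
        _ ≤ Nat.card B ^ 2 * Nat.card V₁ := by gcongr
        _ ≤ Nat.card V := hIH
  exact key (Nat.card A) A le_rfl hAab hAp hnorm hfA

end Q71.TN_F8
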